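import Pool.Agent.J6H18.RC.TwoN

/-!
Lattice approximations of connected subsets of a rectangle are connected; arcs.
-/

set_option autoImplicit false

namespace Pool.Agent.J6H18.RC

open TH976 (Cmp PD sd sd_pos)
open Complex Set Metric Filter Topology H974 H973 H362P
open Pool.Agent.H160R2.CV
open Pool.Agent.H160R2.CV.Quad
open Pool.Agent.Y989.SD (disc mem_disc pos TD SmW cir EE xr)
open Pool.Agent.H389R2.CD (ArS)
open Pool.Agent.J6H18.GD

/-! ### paths in sets of vertices -/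

theorem step_h {V : Vtx → Prop} {a b : ℤ} (h1 : V (a, b)) (h2 : V (a + 1, b)) :
    Reach (EV V) (a, b) (a + 1, b) :=
  Adj.reach ⟨(a, b, true), ⟨h1, h2⟩, Or.inl ⟨rfl, rfl⟩⟩

theorem step_v {V : Vtx → Prop} {a b : ℤ} (h1 : V (a, b)) (h2 : V (a, b + 1)) :
    Reach (EV V) (a, b) (a, b + 1) :=
  Adj.reach ⟨(a, b, false), ⟨h1, h2⟩, Or.inl ⟨rfl, rfl⟩⟩

theorem seg_h {V : Vtx → Prop} {b : ℤ} (n : ℕ) : ∀ a : ℤ, (∀ x, a ≤ x → x ≤ a + n → V (x, b)) →
    Reach (EV V) (a, b) (a + n, b) := by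
  induction n with
  | zero =>
    intro a _
    simp only [Nat.cast_zero, add_zero]
    exact Reach.refl _ _
  | succ n ih =>
    intro a h
    have h1 := ih a (fun x hx hx' => h x hx (by push_cast; omega))
    have h2 := step_h (V := V) (a := a + n) (b := b) (h _ (by omega) (by push_cast; omega))
      (h _ (by omega) (by push_cast; omega))
    have e : a + ((n + 1 : ℕ) : ℤ) = a + n + 1 := by push_cast; ring
    rw [e]
    exact h1.trans h2

theorem seg_v {V : Vtx → Prop} {a : ℤ} (n : ℕ) : ∀ b : ℤ, (∀ y, b ≤ y → y ≤ b + n → V (a, y)) →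
    Reach (EV V) (a, b) (a, b + n) := by
  induction n with
  | zero =>
    intro b _
    simp only [Nat.cast_zero, add_zero]
    exact Reach.refl _ _
  | succ n ih =>
    intro b h
    have h1 := ih b (fun x hx hx' => h x hx (by push_cast; omega))
    have h2 := step_v (V := V) (a := a) (b := b + n) (h _ (by omega) (by push_cast; omega))
      (h _ (by omega) (by push_cast; omega))
    have e : b + ((n + 1 : ℕ) : ℤ) = b + n + 1 := by push_cast; ring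
    rw [e]
    exact h1.trans h2

theorem seg_h' {V : Vtx → Prop} {a b c : ℤ} (h : ∀ x, min a c ≤ x → x ≤ max a c → V (x, b)) :
    Reach (EV V) (a, b) (c, b) := by
  rcases le_total a c with hac | hac
  · obtain ⟨n, hn⟩ : ∃ n : ℕ, c = a + n := ⟨(c - a).toNat, by omega⟩
    rw [hn]
    exact seg_h n a (fun x hx hx' => h x (by omega) (by omega))
  · obtain ⟨n, hn⟩ : ∃ n : ℕ, a = c + n := ⟨(a - c).toNat, by omega⟩
    rw [hn]
    exact (seg_h n c (fun x hx hx' => h x (by omega) (by omega))).symm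

theorem seg_v' {V : Vtx → Prop} {a b d : ℤ} (h : ∀ y, min b d ≤ y → y ≤ max b d → V (a, y)) :
    Reach (EV V) (a, b) (a, d) := by
  rcases le_total b d with hac | hac
  · obtain ⟨n, hn⟩ : ∃ n : ℕ, d = b + n := ⟨(d - b).toNat, by omega⟩
    rw [hn]
    exact seg_v n b (fun x hx hx' => h x (by omega) (by omega))
  · obtain ⟨n, hn⟩ : ∃ n : ℕ, b = d + n := ⟨(b - d).toNat, by omega⟩
    rw [hn]
    exact (seg_v n d (fun x hx hx' => h x (by omega) (by omega))).symm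

theorem box_path {V : Vtx → Prop} {u v : Vtx} (h : ∀ x y : ℤ, min u.1 v.1 ≤ x → x ≤ max u.1 v.1 →
    min u.2 v.2 ≤ y → y ≤ max u.2 v.2 → V (x, y)) : Reach (EV V) u v := by
  obtain ⟨a, b⟩ := u
  obtain ⟨c, d⟩ := v
  simp only at h
  exact (seg_h' (fun x hx hx' => h x b hx hx' (by omega) (by omega))).trans
    (seg_v' (fun y hy hy' => h c y (by omega) (by omega) hy hy'))

/-! ### approximations of connected sets -/

/-- a set of the real line between two points -/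
theorem btw {ε t r : ℝ} (hε : 0 < ε) {a c x : ℤ} (h1 : min a c ≤ x) (h2 : x ≤ max a c)
    (ha : |ε * a - t| ≤ r) (hc : |ε * c - t| ≤ r) : |ε * x - t| ≤ r := by
  have ha' := abs_le.mp ha
  have hc' := abs_le.mp hc
  have h1' : min (a : ℝ) c ≤ x := by exact_mod_cast h1
  have h2' : (x : ℝ) ≤ max (a : ℝ) c := by exact_mod_cast h2
  rw [abs_le]
  constructor
  · rcases min_choice (a : ℝ) c with h | h <;> rw [h] at h1' <;> nlinarith
  · rcases max_choice (a : ℝ) c with h | h <;> rw [h] at h2' <;> nlinarith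

theorem btw' {ε t r : ℝ} (hε : 0 < ε) {a c x : ℤ} (h1 : min a c ≤ x) (h2 : x ≤ max a c)
    (ha : |ε * a - t| < r) (hc : |ε * c - t| < r) : |ε * x - t| < r := by
  have h := btw hε h1 h2 (r := max |ε * a - t| |ε * c - t|) (le_max_left _ _) (le_max_right _ _)
  exact lt_of_le_of_lt h (max_lt ha hc)

/-- the nearest lattice point in an interval -/
theorem near_int {ε lo hi t : ℝ} (hε : 0 < ε) (hlen : ε ≤ hi - lo) (h1 : lo ≤ t) (h2 : t ≤ hi) :
    ∃ k : ℤ, lo ≤ ε * k ∧ ε * k ≤ hi ∧ |ε * k - t| < ε := by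
  have f1 := Int.floor_le (t / ε)
  have f2 := Int.lt_floor_add_one (t / ε)
  rw [le_div_iff₀ hε] at f1
  rw [div_lt_iff₀ hε] at f2
  by_cases h : lo ≤ ε * (⌊t / ε⌋ : ℤ)
  · refine ⟨⌊t / ε⌋, h, by linarith, ?_⟩
    rw [abs_lt]
    constructor <;> nlinarith
  · push Not at h
    refine ⟨⌊t / ε⌋ + 1, ?_, ?_, ?_⟩
    · push_cast
      nlinarith
    · push_cast
      nlinarith
    · rw [abs_lt]
      push_cast
      constructor <;> nlinarith

section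
variable {x1 x2 y1 y2 ε : ℝ}

/-- the vertices of the rectangle next to `z` -/
def Nv (x1 x2 y1 y2 ε : ℝ) (z : ℂ) (v : Vtx) : Prop :=
  v ∈ TR x1 x2 y1 y2 ε ∧ |ε * v.1 - z.re| < ε ∧ |ε * v.2 - z.im| < ε

theorem Nv_ne (hε : 0 < ε) (hx : ε ≤ x2 - x1) (hy : ε ≤ y2 - y1) {z : ℂ}
    (hz : z ∈ Rc x1 x2 y1 y2) : ∃ v, Nv x1 x2 y1 y2 ε z v := by
  obtain ⟨⟨a1, a2⟩, b1, b2⟩ := hz
  obtain ⟨k, k1, k2, k3⟩ := near_int hε hx a1 a2
  obtain ⟨l, l1, l2, l3⟩ := near_int hε hy b1 b2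
  exact ⟨(k, l), (mem_TR hε).mpr ⟨⟨k1, k2⟩, l1, l2⟩, k3, l3⟩

/-- the vertices of the rectangle at distance at most `2 ε` from `E` -/
def NE (x1 x2 y1 y2 ε : ℝ) (E : Set ℂ) (v : Vtx) : Prop :=
  v ∈ TR x1 x2 y1 y2 ε ∧ ∃ z ∈ E, ‖pos ε v - z‖ ≤ 2 * ε

theorem Nv_dist {z : ℂ} {v : Vtx} (h : Nv x1 x2 y1 y2 ε z v) : ‖pos ε v - z‖ ≤ 2 * ε := by
  refine (Complex.norm_le_abs_re_add_abs_im _).trans ?_
  have h1 : (pos ε v - z).re = ε * v.1 - z.re := rfl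
  have h2 : (pos ε v - z).im = ε * v.2 - z.im := rfl
  rw [h1, h2]
  linarith [h.2.1, h.2.2]

theorem Nv_NE {E : Set ℂ} {z : ℂ} (hz : z ∈ E) {v : Vtx} (h : Nv x1 x2 y1 y2 ε z v) :
    NE x1 x2 y1 y2 ε E v := ⟨h.1, z, hz, Nv_dist h⟩

theorem TR_btw (hε : 0 < ε) {u v : Vtx} (hu : u ∈ TR x1 x2 y1 y2 ε) (hv : v ∈ TR x1 x2 y1 y2 ε)
    {x y : ℤ} (h1 : min u.1 v.1 ≤ x) (h2 : x ≤ max u.1 v.1) (h3 : min u.2 v.2 ≤ y)
    (h4 : y ≤ max u.2 v.2) : ((x, y) : Vtx) ∈ TR x1 x2 y1 y2 ε := by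
  unfold TR at *
  rw [mem_Bx] at *
  simp only
  omega

theorem Nv_path (hε : 0 < ε) {E : Set ℂ} {z : ℂ} (hz : z ∈ E) {u v : Vtx}
    (hu : Nv x1 x2 y1 y2 ε z u) (hv : Nv x1 x2 y1 y2 ε z v) :
    Reach (EV (NE x1 x2 y1 y2 ε E)) u v := by
  apply box_path
  intro x y h1 h2 h3 h4
  apply Nv_NE hz
  exact ⟨TR_btw hε hu.1 hv.1 h1 h2 h3 h4, btw' hε h1 h2 hu.2.1 hv.2.1, btw' hε h3 h4 hu.2.2 hv.2.2⟩

theorem NE_path (hε : 0 < ε) (hx : ε ≤ x2 - x1) (hy : ε ≤ y2 - y1) {E : Set ℂ}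
    (hE : E ⊆ Rc x1 x2 y1 y2) {u : Vtx} (hu : NE x1 x2 y1 y2 ε E u) :
    ∃ z ∈ E, ∃ v, Nv x1 x2 y1 y2 ε z v ∧ Reach (EV (NE x1 x2 y1 y2 ε E)) u v := by
  obtain ⟨huT, z, hz, hd⟩ := hu
  obtain ⟨w, hwT, hw1, hw2⟩ := Nv_ne hε hx hy (hE hz)
  set c : ℤ := if |ε * u.1 - z.re| < ε then u.1 else w.1 with hc
  set d : ℤ := if |ε * u.2 - z.im| < ε then u.2 else w.2 with hd'
  have c1 : |ε * c - z.re| < ε ∧ |ε * c - z.re| ≤ |ε * u.1 - z.re| := by
    rw [hc]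
    split_ifs with h
    · exact ⟨h, le_rfl⟩
    · exact ⟨hw1, by linarith⟩
  have d1 : |ε * d - z.im| < ε ∧ |ε * d - z.im| ≤ |ε * u.2 - z.im| := by
    rw [hd']
    split_ifs with h
    · exact ⟨h, le_rfl⟩
    · exact ⟨hw2, by linarith⟩
  have hT : ((c, d) : Vtx) ∈ TR x1 x2 y1 y2 ε := by
    apply TR_btw hε huT hwT
    · rw [hc]; split_ifs <;> omega
    · rw [hc]; split_ifs <;> omega
    · rw [hd']; split_ifs <;> omega
    · rw [hd']; split_ifs <;> omega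
  refine ⟨z, hz, (c, d), ⟨hT, c1.1, d1.1⟩, ?_⟩
  apply box_path
  intro x y h1 h2 h3 h4
  simp only at h1 h2 h3 h4
  refine ⟨TR_btw hε huT hT h1 h2 h3 h4, z, hz, ?_⟩
  have g1 : |ε * x - z.re| ≤ |ε * u.1 - z.re| := btw hε h1 h2 le_rfl c1.2
  have g2 : |ε * y - z.im| ≤ |ε * u.2 - z.im| := btw hε h3 h4 le_rfl d1.2
  refine le_trans ?_ hd
  apply abs_le_of_sq_le_sq' _ (norm_nonneg _) |>.2
  rw [Complex.sq_norm, Complex.sq_norm, normSq_apply, normSq_apply]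
  have e1 : (pos ε (x, y) - z).re = ε * x - z.re := rfl
  have e2 : (pos ε (x, y) - z).im = ε * y - z.im := rfl
  have e3 : (pos ε u - z).re = ε * u.1 - z.re := rfl
  have e4 : (pos ε u - z).im = ε * u.2 - z.im := rfl
  rw [e1, e2, e3, e4]
  have s1 := sq_le_sq' (by linarith [neg_abs_le (ε * x - z.re), abs_nonneg (ε * u.1 - z.re), abs_nonneg (ε * x - z.re)]) g1
  have s2 := sq_le_sq' (by linarith [neg_abs_le (ε * y - z.im), abs_nonneg (ε * u.2 - z.im), abs_nonneg (ε * y - z.im)]) g2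
  rw [sq_abs, sq_abs] at s1 s2
  nlinarith

/-- the approximation of a connected set is connected -/
theorem NE_conn (hε : 0 < ε) (hx : ε ≤ x2 - x1) (hy : ε ≤ y2 - y1) {E : Set ℂ}
    (hE : E ⊆ Rc x1 x2 y1 y2) (hc : IsPreconnected E) {u v : Vtx} (hu : NE x1 x2 y1 y2 ε E u)
    (hv : NE x1 x2 y1 y2 ε E v) : Reach (EV (NE x1 x2 y1 y2 ε E)) u v := by
  obtain ⟨z, hz, u', hu', h1⟩ := NE_path hε hx hy hE hu
  obtain ⟨w, hw, v', hv', h2⟩ := NE_path hε hx hy hE hv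
  have key : ∀ a b : Vtx, Nv x1 x2 y1 y2 ε z a → Nv x1 x2 y1 y2 ε w b →
      Reach (EV (NE x1 x2 y1 y2 ε E)) a b := by
    refine hc.induction₂' (fun z w => ∀ a b : Vtx, Nv x1 x2 y1 y2 ε z a → Nv x1 x2 y1 y2 ε w b →
      Reach (EV (NE x1 x2 y1 y2 ε E)) a b) ?_ ?_ hz hw
    · intro x hxE
      obtain ⟨v0, hv0T, hv1, hv2⟩ := Nv_ne hε hx hy (hE hxE)
      have c1 : ∀ᶠ y in 𝓝[E] x, |ε * v0.1 - y.re| < ε := by
        have : ContinuousWithinAt (fun y : ℂ => |ε * v0.1 - y.re|) E x := by fun_prop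
        exact this.eventually_lt continuousWithinAt_const hv1
      have c2 : ∀ᶠ y in 𝓝[E] x, |ε * v0.2 - y.im| < ε := by
        have : ContinuousWithinAt (fun y : ℂ => |ε * v0.2 - y.im|) E x := by fun_prop
        exact this.eventually_lt continuousWithinAt_const hv2
      filter_upwards [c1, c2, self_mem_nhdsWithin] with y y1' y2' hyE
      have n1 : Nv x1 x2 y1 y2 ε x v0 := ⟨hv0T, hv1, hv2⟩
      have n2 : Nv x1 x2 y1 y2 ε y v0 := ⟨hv0T, y1', y2'⟩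
      exact ⟨fun a b ha hb => (Nv_path hε hxE ha n1).trans (Nv_path hε hyE n2 hb),
        fun a b ha hb => (Nv_path hε hyE ha n2).trans (Nv_path hε hxE n1 hb)⟩
    · intro x y z _ hyE _ hxy hyz a b ha hb
      obtain ⟨v0, hv0⟩ := Nv_ne hε hx hy (hE hyE)
      exact (hxy a v0 ha hv0).trans (hyz v0 b hv0 hb)
  exact h1.trans ((key u' v' hu' hv').trans h2.symm)

open Classical in
/-- the approximation as a finite set -/
noncomputable def NS (x1 x2 y1 y2 ε : ℝ) (E : Set ℂ) : Finset Vtx :=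
  (TR x1 x2 y1 y2 ε).filter (NE x1 x2 y1 y2 ε E)

theorem mem_NS {E : Set ℂ} {v : Vtx} : v ∈ NS x1 x2 y1 y2 ε E ↔ NE x1 x2 y1 y2 ε E v := by
  classical
  unfold NS
  rw [Finset.mem_filter]
  exact ⟨fun h => h.2, fun h => ⟨h.1, h⟩⟩

theorem NS_ct (hε : 0 < ε) (hx : ε ≤ x2 - x1) (hy : ε ≤ y2 - y1) {E : Set ℂ}
    (hE : E ⊆ Rc x1 x2 y1 y2) (hc : IsPreconnected E) : Ct (NS x1 x2 y1 y2 ε E) := by
  intro u hu v hv
  have e : (fun y => y ∈ NS x1 x2 y1 y2 ε E) = NE x1 x2 y1 y2 ε E := by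
    funext y
    exact propext mem_NS
  rw [e]
  exact NE_conn hε hx hy hE hc (mem_NS.mp hu) (mem_NS.mp hv)

theorem NS_ap (hε : 0 < ε) (hx : ε ≤ x2 - x1) (hy : ε ≤ y2 - y1) {f : ℂ → ℂ} {X : Set ℂ}
    (hX : X ⊆ disc) (hE : f '' X ⊆ Rc x1 x2 y1 y2) (hw : ∃ p ∈ X, ∃ q ∈ X, ε ≤ ‖f p - f q‖) :
    Ap f ε 2 (NS x1 x2 y1 y2 ε (f '' X)) X := by
  refine ⟨hX, ?_, ?_, hw⟩
  · intro p hp
    obtain ⟨v, hv⟩ := Nv_ne hε hx hy (hE (mem_image_of_mem f hp))
    refine ⟨v, mem_NS.mpr (Nv_NE (mem_image_of_mem f hp) hv), ?_⟩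
    rw [norm_sub_rev]
    exact Nv_dist hv
  · intro v hv
    obtain ⟨-, z, ⟨p, hp, rfl⟩, hd⟩ := mem_NS.mp hv
    refine ⟨p, hp, ?_⟩
    rw [norm_sub_rev]
    exact hd

end

/-! ### arcs of the circle -/

/-- the arc of the circle -/
def CA (a b : ℝ) : Set ℂ := cir '' Icc a b

theorem cir_nm (a : ℝ) : ‖cir a‖ = 1 := by
  unfold cir
  exact Complex.norm_exp_ofReal_mul_I a

theorem cir_ct : Continuous cir := by
  unfold cir
  fun_prop

theorem cir_per (a : ℝ) : cir (a + 2 * Real.pi) = cir a := by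
  unfold cir
  have : ((a + 2 * Real.pi : ℝ) : ℂ) * I = a * I + 2 * Real.pi * I := by push_cast; ring
  rw [this, Complex.exp_add, Complex.exp_two_pi_mul_I, mul_one]

theorem CA_disc (a b : ℝ) : CA a b ⊆ disc := by
  rintro z ⟨θ, -, rfl⟩
  rw [mem_disc, cir_nm]

theorem CA_compact (a b : ℝ) : IsCompact (CA a b) := isCompact_Icc.image cir_ct

theorem CA_bdd (a b : ℝ) : Bornology.IsBounded (CA a b) := (CA_compact a b).isBounded

theorem CA_pre (a b : ℝ) : IsPreconnected (CA a b) :=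
  isPreconnected_Icc.image _ cir_ct.continuousOn

theorem cir_CA {a b θ : ℝ} (h1 : a ≤ θ) (h2 : θ ≤ b) : cir θ ∈ CA a b := ⟨θ, ⟨h1, h2⟩, rfl⟩

theorem CA_gap_Sph {a b : ℝ} (hab : a ≤ b) : gap (CA a b) Sph = 0 := by
  apply le_antisymm _ (gap_nonneg _ _)
  have h := gap_le (X := CA a b) (Y := Sph) (p := cir a) (q := cir a) ⟨a, ⟨le_rfl, hab⟩, rfl⟩
    (by rw [Sph, mem_sphere_iff_norm, sub_zero]; exact cir_nm a)
  simpa using h

theorem CA_diam_le {a b : ℝ} (hab : a ≤ b) : diam (CA a b) ≤ b - a := by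
  apply diam_le_of_forall_dist_le (by linarith)
  rintro x ⟨θ, ⟨h1, h2⟩, rfl⟩ y ⟨θ', ⟨h3, h4⟩, rfl⟩
  rw [dist_eq_norm]
  refine (Pool.Agent.Y989.SD.AUP.cir_up θ' θ).trans ?_
  rw [abs_le]
  constructor <;> linarith

theorem CA_le_diam {a b : ℝ} (hab : a ≤ b) (hb : b ≤ a + 2 * Real.pi) :
    (b - a) / 4 ≤ diam (CA a b) := by
  have hpi := Real.pi_pos
  rcases le_total (b - a) Real.pi with h | h
  · have h1 := Pool.Agent.Y989.SD.AUP.cir_low a b (b - a) (by linarith) le_rfl (by linarith)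
    have h2 := dist_le_diam_of_mem (CA_bdd a b) (x := cir b) (y := cir a) ⟨b, ⟨hab, le_rfl⟩, rfl⟩
      ⟨a, ⟨le_rfl, hab⟩, rfl⟩
    rw [dist_eq_norm] at h2
    linarith
  · have h1 := Pool.Agent.Y989.SD.AUP.cir_low a (a + Real.pi) Real.pi hpi.le (by linarith)
      (by linarith)
    have h2 := dist_le_diam_of_mem (CA_bdd a b) (x := cir (a + Real.pi)) (y := cir a)
      ⟨a + Real.pi, ⟨by linarith, by linarith⟩, rfl⟩ ⟨a, ⟨le_rfl, hab⟩, rfl⟩
    rw [dist_eq_norm] at h2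
    linarith

theorem CA_gap_le {a b c d : ℝ} (h1 : a ≤ b) (h2 : b ≤ c) (h3 : c ≤ d) (h4 : d ≤ a + 2 * Real.pi) :
    gap (CA a b) (CA c d) ≤ min (c - b) (a + 2 * Real.pi - d) := by
  apply le_min
  · refine (gap_le (cir_CA h1 le_rfl) (cir_CA le_rfl h3)).trans ?_
    refine (Pool.Agent.Y989.SD.AUP.cir_up c b).trans ?_
    rw [abs_le]
    constructor <;> linarith
  · refine (gap_le (cir_CA le_rfl h1) (cir_CA h3 le_rfl)).trans ?_
    rw [← cir_per a]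
    refine (Pool.Agent.Y989.SD.AUP.cir_up d _).trans ?_
    rw [abs_le]
    constructor <;> linarith

theorem CA_le_gap {a b c d : ℝ} (h1 : a ≤ b) (h2 : b ≤ c) (h3 : c ≤ d) (h4 : d ≤ a + 2 * Real.pi) :
    min (c - b) (a + 2 * Real.pi - d) / 2 ≤ gap (CA a b) (CA c d) := by
  apply le_gap ⟨cir a, cir_CA le_rfl h1⟩ ⟨cir c, cir_CA le_rfl h3⟩
  rintro x ⟨θ, ⟨t1, t2⟩, rfl⟩ y ⟨θ', ⟨t3, t4⟩, rfl⟩
  rw [norm_sub_rev]
  apply Pool.Agent.Y989.SD.AUP.cir_low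
  · exact le_min (by linarith) (by linarith)
  · exact (min_le_left _ _).trans (by linarith)
  · exact (min_le_right _ _).trans (by linarith)

theorem frac_cmp {t l d g : ℝ} (hl : 0 < l) (hg : 0 < g) (h1 : l / 4 ≤ t) (h2 : t ≤ l)
    (h3 : g / 2 ≤ d) (h4 : d ≤ g) : Cmp 4 (t / (t + d)) (l / (l + g)) := by
  have ht : 0 < t := by linarith
  have hd : 0 < d := by linarith
  refine ⟨by norm_num, by positivity, by positivity, ?_, ?_⟩
  · rw [← mul_div_assoc, div_le_div_iff₀ (by positivity) (by positivity)]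
    nlinarith
  · rw [← mul_div_assoc, div_le_div_iff₀ (by positivity) (by positivity)]
    nlinarith

theorem Rr_CA {a b c d : ℝ} (h1 : a < b) (h2 : b < c) (h3 : c < d) (h4 : d < a + 2 * Real.pi) :
    Cmp 4 (Rr (CA a b) (CA c d))
      (((b - a) / (b - a + min (c - b) (a + 2 * Real.pi - d))) ^ (1 / 3 : ℝ)) := by
  have hg : 0 < min (c - b) (a + 2 * Real.pi - d) := lt_min (by linarith) (by linarith)
  have k := frac_cmp (sub_pos.mpr h1) hg (CA_le_diam h1.le (by linarith)) (CA_diam_le h1.le)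
    (CA_le_gap h1.le h2.le h3.le h4.le) (CA_gap_le h1.le h2.le h3.le h4.le)
  have k' := k.rpow (a := 1 / 3) (by norm_num) (by norm_num)
  refine k'.congr ?_ rfl
  unfold Rr
  rw [CA_gap_Sph h1.le, add_zero, ← Real.rpow_add k.hx]
  norm_num

theorem Rr_CA' {a b c d : ℝ} (h1 : a < b) (h2 : b < c) (h3 : c < d) (h4 : d < a + 2 * Real.pi) :
    Cmp 4 (Rr (CA c d) (CA a b))
      (((d - c) / (d - c + min (c - b) (a + 2 * Real.pi - d))) ^ (1 / 3 : ℝ)) := by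
  have hg : 0 < min (c - b) (a + 2 * Real.pi - d) := lt_min (by linarith) (by linarith)
  have k := frac_cmp (sub_pos.mpr h3) hg (CA_le_diam h3.le (by linarith)) (CA_diam_le h3.le)
    (CA_le_gap h1.le h2.le h3.le h4.le) (CA_gap_le h1.le h2.le h3.le h4.le)
  have k' := k.rpow (a := 1 / 3) (by norm_num) (by norm_num)
  refine k'.congr ?_ rfl
  unfold Rr
  rw [CA_gap_Sph h3.le, add_zero, gap_comm, ← Real.rpow_add k.hx]
  norm_num

theorem RR_EE {a b c d : ℝ} (h1 : a < b) (h2 : b < c) (h3 : c < d) (h4 : d < a + 2 * Real.pi) :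
    Cmp 16 (Rr (CA a b) (CA c d) * Rr (CA c d) (CA a b)) (EE a b c d ^ (1 / 3 : ℝ)) := by
  have k := (Rr_CA h1 h2 h3 h4).mul (Rr_CA' h1 h2 h3 h4)
  have hg : 0 < min (c - b) (a + 2 * Real.pi - d) := lt_min (by linarith) (by linarith)
  have p1 : 0 < b - a := by linarith
  have p2 : 0 < d - c := by linarith
  refine (k.congr rfl ?_).weaken (by norm_num)
  unfold EE
  rw [Real.mul_rpow (by positivity) (by positivity)]

/-- **Cardy's formula up to constants in rectangles** -/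
theorem arcs_R (hA : ArS) {f : ℂ → ℂ} {x1 x2 y1 y2 : ℝ} (h : RM f x1 x2 y1 y2) :
    ∃ C ε0 : ℝ, 1 ≤ C ∧ 0 < ε0 ∧ ∀ ε a b c d : ℝ, 0 < ε → ε ≤ ε0 → a < b → b < c → c < d →
      d < a + 2 * Real.pi → ε ≤ diam (f '' CA a b) → ε ≤ diam (f '' CA c d) →
      Cmp C (Pr P (ES (TR x1 x2 y1 y2 ε)) (Jn (NS x1 x2 y1 y2 ε (f '' CA a b))
        (NS x1 x2 y1 y2 ε (f '' CA c d)))) (EE a b c d ^ (1 / 3 : ℝ)) := by
  obtain ⟨C, ε0, hC, hε0, hall⟩ := two_R hA h (M := 2) (by norm_num)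
  have hx : 0 < x2 - x1 := sub_pos.mpr h.hx
  have hy : 0 < y2 - y1 := sub_pos.mpr h.hy
  refine ⟨C * 16, min ε0 (min (x2 - x1) (y2 - y1)), by linarith, lt_min hε0 (lt_min hx hy), ?_⟩
  intro ε a b c d hε hε' h1 h2 h3 h4 w1 w2
  have hε0' : ε ≤ ε0 := hε'.trans (min_le_left _ _)
  have hεx : ε ≤ x2 - x1 := hε'.trans ((min_le_right _ _).trans (min_le_left _ _))
  have hεy : ε ≤ y2 - y1 := hε'.trans ((min_le_right _ _).trans (min_le_right _ _))
  have hsub : ∀ s t, f '' CA s t ⊆ Rc x1 x2 y1 y2 := by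
    intro s t
    rw [← h.img_disc]
    exact image_mono (CA_disc s t)
  have hcont : ∀ s t, ContinuousOn f (CA s t) := fun s t => h.cont.mono (CA_disc s t)
  have hwide : ∀ s t, s < t → ε ≤ diam (f '' CA s t) →
      ∃ p ∈ CA s t, ∃ q ∈ CA s t, ε ≤ ‖f p - f q‖ := by
    intro s t hst hw
    have hne : (CA s t ×ˢ CA s t).Nonempty :=
      ⟨(cir s, cir s), ⟨s, ⟨le_rfl, hst.le⟩, rfl⟩, ⟨s, ⟨le_rfl, hst.le⟩, rfl⟩⟩
    have hco : ContinuousOn (fun z : ℂ × ℂ => ‖f z.1 - f z.2‖) (CA s t ×ˢ CA s t) := by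
      apply ContinuousOn.norm
      apply ContinuousOn.sub
      · exact (hcont s t).comp continuousOn_fst (fun z hz => hz.1)
      · exact (hcont s t).comp continuousOn_snd (fun z hz => hz.2)
    obtain ⟨⟨p, q⟩, ⟨hp, hq⟩, hmax⟩ := ((CA_compact s t).prod (CA_compact s t)).exists_isMaxOn hne hco
    refine ⟨p, hp, q, hq, hw.trans ?_⟩
    apply diam_le_of_forall_dist_le (norm_nonneg _)
    rintro x ⟨u, hu, rfl⟩ y ⟨v, hv, rfl⟩
    rw [dist_eq_norm]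
    exact hmax (⟨hu, hv⟩ : (u, v) ∈ CA s t ×ˢ CA s t)
  have hpre : ∀ s t, IsPreconnected (f '' CA s t) := fun s t => (CA_pre s t).image _ (hcont s t)
  have key := hall ε hε hε0' _ _ _ _
    (NS_ap hε hεx hεy (CA_disc a b) (hsub a b) (hwide a b h1 w1))
    (NS_ap hε hεx hεy (CA_disc c d) (hsub c d) (hwide c d h3 w2))
    (fun u hu => (mem_NS.mp hu).1) (fun u hu => (mem_NS.mp hu).1)
    (NS_ct hε hεx hεy (hsub a b) (hpre a b)) (NS_ct hε hεx hεy (hsub c d) (hpre c d))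
  exact key.trans (RR_EE h1 h2 h3 h4)

end Pool.Agent.J6H18.RC
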