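import Pool.Agent.H18R3.Refl

/-!
Boundary behaviour of conformal maps onto domains with straight sides.
-/

set_option autoImplicit false

namespace Pool.Agent.J6H18.RC

open Complex Metric Set Filter Topology

/-- a direction in the upper half-plane in which `c w ^ k` has a negative imaginary part -/
theorem dir_neg {c : ℂ} (hc : c ≠ 0) {k : ℕ} (hk : 2 ≤ k) :
    ∃ θ : ℝ, 0 < θ ∧ θ < Real.pi ∧ (c * Complex.exp ((k * θ : ℝ) * I)).im < 0 := by
  by_contra hcon
  push Not at hcon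
  have hπ := Real.pi_pos
  have hkr : (2 : ℝ) ≤ k := by exact_mod_cast hk
  have h1 : ∀ α : ℝ, 0 < α → α < 2 * Real.pi →
      0 ≤ c.re * Real.sin α + c.im * Real.cos α := by
    intro α h1 h2
    have h3 := hcon (α / k) (by positivity) (by
      rw [div_lt_iff₀ (by linarith)]
      nlinarith)
    have e : ((k : ℝ) * (α / k) : ℝ) = α := by field_simp
    rw [e, Complex.exp_mul_I, mul_im, add_re, add_im, mul_re, mul_im, I_re, I_im,
      ← ofReal_cos, ← ofReal_sin, ofReal_re, ofReal_im, ofReal_re, ofReal_im] at h3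
    linarith
  have a1 := h1 (Real.pi / 2) (by positivity) (by linarith)
  have a2 := h1 (Real.pi / 2 + Real.pi) (by positivity) (by linarith)
  rw [Real.sin_add_pi, Real.cos_add_pi] at a2
  rw [Real.sin_pi_div_two, Real.cos_pi_div_two] at a1 a2
  have hre : c.re = 0 := by linarith
  have a3 := h1 (Real.pi / 4) (by positivity) (by linarith)
  have a4 := h1 (Real.pi / 4 + Real.pi) (by positivity) (by linarith)
  rw [Real.sin_add_pi, Real.cos_add_pi, hre] at a4
  rw [hre] at a3
  have hcos : 0 < Real.cos (Real.pi / 4) := Real.cos_pos_of_mem_Ioo ⟨by linarith, by linarith⟩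
  have him : c.im = 0 := by
    have e1 : 0 ≤ c.im * Real.cos (Real.pi / 4) := by linarith
    have e2 : c.im * Real.cos (Real.pi / 4) ≤ 0 := by linarith
    have e3 : c.im * Real.cos (Real.pi / 4) = 0 := le_antisymm e2 e1
    rcases mul_eq_zero.mp e3 with h | h
    · exact h
    · exact absurd h hcos.ne'
  exact hc (Complex.ext hre him)

/-- A holomorphic function with positive imaginary part in the upper half-disc and a real value at
the origin has a nonzero derivative there. -/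
theorem deriv_ne_zero_of_im_pos {H : ℂ → ℂ} {a : ℝ} (ha : 0 < a)
    (hd : DifferentiableOn ℂ H (ball 0 a)) (h0 : (H 0).im = 0)
    (hi : ∀ w : ℂ, ‖w‖ < a → 0 < w.im → 0 < (H w).im) : deriv H 0 ≠ 0 := by
  intro hder
  have hball : ball (0 : ℂ) a ∈ 𝓝 (0 : ℂ) := ball_mem_nhds 0 ha
  have hA : AnalyticAt ℂ (fun w => H w - H 0) 0 := by
    have : AnalyticAt ℂ H 0 := hd.analyticAt hball
    exact this.sub analyticAt_const
  rcases hA.eventually_eq_zero_or_eventually_ne_zero with h1 | h1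
  · -- constant
    obtain ⟨r, hr, h2⟩ := Metric.eventually_nhds_iff.mp h1
    set t : ℝ := min r a / 2 with ht
    have ht0 : 0 < t := by positivity
    have htr : t < r := by have := min_le_left r a; linarith
    have hta : t < a := by have := min_le_right r a; linarith
    have hn : ‖(t : ℂ) * I‖ = t := by simp [abs_of_pos ht0]
    have h3 := h2 (y := (t : ℂ) * I) (by rw [dist_zero_right, hn]; exact htr)
    have h4 := hi ((t : ℂ) * I) (by rw [hn]; exact hta) (by simp [ht0])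
    have h5 : H ((t : ℂ) * I) = H 0 := sub_eq_zero.mp h3
    rw [h5, h0] at h4
    exact lt_irrefl _ h4
  · have h2 : ¬ ∀ᶠ w in 𝓝 (0 : ℂ), H w - H 0 = 0 := by
      intro h3
      have h4 := (h3.filter_mono nhdsWithin_le_nhds).and h1
      obtain ⟨w, hw⟩ := h4.exists
      exact hw.2 hw.1
    obtain ⟨n, g, hg, hg0, he⟩ := hA.exists_eventuallyEq_pow_smul_nonzero_iff.mpr h2
    -- the order is at least two
    have hn : 2 ≤ n := by
      by_contra hn
      have hn' : n = 0 ∨ n = 1 := by omega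
      rcases hn' with rfl | rfl
      · have := he.self_of_nhds
        simp only [sub_self, pow_zero, one_smul] at this
        exact hg0 this.symm
      · have h3 : HasDerivAt (fun w : ℂ => (w - 0) ^ 1 • g w) (g 0) 0 := by
          have h4 := ((hasDerivAt_id (0 : ℂ)).mul hg.differentiableAt.hasDerivAt)
          simp only [id, one_mul, zero_mul, add_zero] at h4
          refine h4.congr_of_eventuallyEq (Eventually.of_forall fun w => ?_)
          simp
        have h4 : HasDerivAt (fun w : ℂ => H w - H 0) (g 0) 0 := h3.congr_of_eventuallyEq he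
        have h5 := h4.add_const (H 0)
        have h6 : HasDerivAt H (g 0) 0 := by
          refine h5.congr_of_eventuallyEq (Eventually.of_forall fun w => ?_)
          simp
        rw [h6.deriv] at hder
        exact hg0 hder
    obtain ⟨θ, hθ0, hθ1, hθ⟩ := dir_neg hg0 hn
    set p : ℂ := Complex.exp ((θ : ℝ) * I) with hp
    have hpn : ‖p‖ = 1 := Complex.norm_exp_ofReal_mul_I θ
    have hpk : p ^ n = Complex.exp ((n * θ : ℝ) * I) := by
      rw [hp, ← Complex.exp_nat_mul]
      congr 1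
      push_cast
      ring
    have hpi : 0 < p.im := by
      rw [hp, Complex.exp_ofReal_mul_I_im]
      exact Real.sin_pos_of_pos_of_lt_pi hθ0 hθ1
    -- negative imaginary part
    have hcont : ContinuousAt (fun t : ℝ => (p ^ n * g ((t : ℂ) * p)).im) 0 := by
      have h3 : ContinuousAt (fun t : ℝ => (t : ℂ) * p) 0 := by fun_prop
      have h4 : ContinuousAt g ((fun t : ℝ => (t : ℂ) * p) 0) := by
        simp only [ofReal_zero, zero_mul]
        exact hg.continuousAt
      have h5 : ContinuousAt (fun t : ℝ => g ((t : ℂ) * p)) 0 := ContinuousAt.comp h4 h3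
      exact Complex.continuous_im.continuousAt.comp (continuousAt_const.mul h5)
    have hneg : (p ^ n * g (((0 : ℝ) : ℂ) * p)).im < 0 := by
      rw [ofReal_zero, zero_mul, hpk, mul_comm]
      exact hθ
    have e1 : ∀ᶠ t : ℝ in 𝓝 0, (p ^ n * g ((t : ℂ) * p)).im < 0 :=
      hcont.eventually (Iio_mem_nhds hneg)
    have e2 : ∀ᶠ t : ℝ in 𝓝 0, H ((t : ℂ) * p) - H 0 = (((t : ℂ) * p) - 0) ^ n • g ((t : ℂ) * p) := by
      have h3 : Tendsto (fun t : ℝ => (t : ℂ) * p) (𝓝 0) (𝓝 0) := by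
        have : ContinuousAt (fun t : ℝ => (t : ℂ) * p) 0 := by fun_prop
        simpa [ContinuousAt] using this
      exact h3.eventually he
    obtain ⟨r, hr, h3⟩ := Metric.eventually_nhds_iff.mp (e1.and e2)
    set t : ℝ := min r a / 2 with ht
    have ht0 : 0 < t := by positivity
    have htr : t < r := by have := min_le_left r a; linarith
    have hta : t < a := by have := min_le_right r a; linarith
    obtain ⟨h4, h5⟩ := h3 (y := t) (by rw [dist_zero_right, Real.norm_eq_abs, abs_of_pos ht0]; exact htr)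
    have h6 := hi ((t : ℂ) * p) (by
      rw [norm_mul, hpn, mul_one, Complex.norm_real, Real.norm_eq_abs, abs_of_pos ht0]
      exact hta) (by
      rw [mul_im, ofReal_re, ofReal_im, zero_mul, add_zero]
      exact mul_pos ht0 hpi)
    have h7 : (H ((t : ℂ) * p)).im = (H ((t : ℂ) * p) - H 0).im := by rw [sub_im, h0, sub_zero]
    have h8 : (((t : ℂ) * p) - 0) ^ n • g ((t : ℂ) * p) =
        ((t ^ n : ℝ) : ℂ) * (p ^ n * g ((t : ℂ) * p)) := by
      rw [sub_zero, smul_eq_mul, mul_pow]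
      push_cast
      ring
    rw [h7, h5, h8, mul_im, ofReal_re, ofReal_im, zero_mul, add_zero] at h6
    have h9 : 0 < t ^ n := by positivity
    nlinarith

/-- the local coordinate at the point `p` of the circle -/
noncomputable def psi (p w : ℂ) : ℂ := p * (I - w) / (I + w)

/-- its inverse -/
noncomputable def chi (p z : ℂ) : ℂ := I * (p - z) / (p + z)

theorem I_add_ne {w : ℂ} (hw : ‖w‖ < 1) : I + w ≠ 0 := by
  intro h
  have : w = -I := by linear_combination h
  rw [this] at hw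
  simp at hw

theorem p_add_ne {p z : ℂ} (hp : ‖p‖ = 1) (hz : ‖z - p‖ < 2) : p + z ≠ 0 := by
  intro h
  have : z - p = -(2 * p) := by linear_combination h
  rw [this, norm_neg, norm_mul, hp] at hz
  norm_num at hz

theorem psi_chi {p z : ℂ} (hp : ‖p‖ = 1) (hz : ‖z - p‖ < 2) : psi p (chi p z) = z := by
  have h1 := p_add_ne hp hz
  have h2 : p ≠ 0 := by
    rintro rfl
    simp at hp
  unfold psi chi
  have e1 : I + I * (p - z) / (p + z) = 2 * I * p / (p + z) := by
    field_simp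
    ring
  have e2 : I - I * (p - z) / (p + z) = 2 * I * z / (p + z) := by
    field_simp
    ring
  rw [e1, e2]
  field_simp

theorem chi_sub {p z z' : ℂ} (hp : ‖p‖ = 1) (hz : ‖z - p‖ < 2) (hz' : ‖z' - p‖ < 2) :
    chi p z - chi p z' = 2 * I * p * (z' - z) / ((p + z) * (p + z')) := by
  have h1 := p_add_ne hp hz
  have h2 := p_add_ne hp hz'
  unfold chi
  field_simp
  ring

theorem psi_sub {p w : ℂ} (hw : ‖w‖ < 1) : psi p w - p = -2 * p * w / (I + w) := by
  have h1 := I_add_ne hw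
  unfold psi
  field_simp
  ring

theorem normSq_ids (w : ℂ) : ‖I + w‖ ^ 2 - ‖I - w‖ ^ 2 = 4 * w.im := by
  rw [← Complex.normSq_eq_norm_sq, ← Complex.normSq_eq_norm_sq, Complex.normSq_apply,
    Complex.normSq_apply]
  simp
  ring

theorem norm_psi {p w : ℂ} (hp : ‖p‖ = 1) (hw : ‖w‖ < 1) :
    (0 ≤ w.im → ‖psi p w‖ ≤ 1) ∧ (0 < w.im → ‖psi p w‖ < 1) ∧ (w.im = 0 → ‖psi p w‖ = 1) := by
  have h1 := I_add_ne hw
  have h2 : 0 < ‖I + w‖ := norm_pos_iff.mpr h1
  have h3 := normSq_ids w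
  have h4 : ‖psi p w‖ = ‖I - w‖ / ‖I + w‖ := by
    unfold psi
    rw [norm_div, norm_mul, hp, one_mul]
  have h5 := norm_nonneg (I - w)
  refine ⟨fun h => ?_, fun h => ?_, fun h => ?_⟩
  · rw [h4, div_le_one h2]
    nlinarith
  · rw [h4, div_lt_one h2]
    nlinarith
  · rw [h4, div_eq_one_iff_eq h2.ne']
    nlinarith

theorem chi_im {p z : ℂ} (hp : ‖p‖ = 1) (hz : ‖z - p‖ < 2) (h1 : ‖z‖ ≤ 1) :
    0 ≤ (chi p z).im := by
  have h2 := p_add_ne hp hz
  have e : chi p z = I * ((p - z) * (starRingEnd ℂ) (p + z)) / ((‖p + z‖ ^ 2 : ℝ) : ℂ) := by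
    unfold chi
    have h3 : ((‖p + z‖ ^ 2 : ℝ) : ℂ) = (p + z) * (starRingEnd ℂ) (p + z) := by
      rw [Complex.mul_conj, Complex.normSq_eq_norm_sq]
    have h4 : (starRingEnd ℂ) (p + z) ≠ 0 := by
      intro h
      apply h2
      exact (map_eq_zero _).mp h
    rw [h3]
    field_simp
  have h5 : (I * ((p - z) * (starRingEnd ℂ) (p + z))).im = ‖p‖ ^ 2 - ‖z‖ ^ 2 := by
    rw [← Complex.normSq_eq_norm_sq, ← Complex.normSq_eq_norm_sq, Complex.normSq_apply,
      Complex.normSq_apply]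
    simp
    ring
  rw [e, Complex.div_ofReal_im, h5, hp]
  apply div_nonneg _ (by positivity)
  have := norm_nonneg z
  nlinarith

/-- **Local behaviour at the boundary.** -/
theorem loc {F : ℂ → ℂ} {p : ℂ} (hp : ‖p‖ = 1) {δ : ℝ} (hδ : 0 < δ)
    (hc : ContinuousOn F (closedBall 0 1 ∩ ball p δ))
    (hd : DifferentiableOn ℂ F (ball 0 1 ∩ ball p δ))
    (hi : ∀ z ∈ ball p δ, ‖z‖ < 1 → 0 < (F z).im) (hb : ∀ z ∈ ball p δ, ‖z‖ = 1 → (F z).im = 0) :
    ∃ r C : ℝ, 0 < r ∧ 1 ≤ C ∧ ∀ z ∈ closedBall (0 : ℂ) 1 ∩ ball p r,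
      ∀ z' ∈ closedBall (0 : ℂ) 1 ∩ ball p r,
        ‖z - z'‖ ≤ C * ‖F z - F z'‖ ∧ ‖F z - F z'‖ ≤ C * ‖z - z'‖ := by
  set a : ℝ := min (1 / 2) (δ / 4) with ha
  have ha0 : 0 < a := by positivity
  have ha1 : a ≤ 1 / 2 := min_le_left _ _
  have ha2 : a ≤ δ / 4 := min_le_right _ _
  have hlow : ∀ w : ℂ, ‖w‖ < a → 1 / 2 ≤ ‖I + w‖ := by
    intro w hw
    have h1 := norm_sub_norm_le I (-w)
    rw [norm_neg, sub_neg_eq_add, Complex.norm_I] at h1
    linarith
  have hpsi : ∀ w : ℂ, ‖w‖ < a → psi p w ∈ ball p δ := by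
    intro w hw
    rw [mem_ball, dist_eq_norm, psi_sub (by linarith)]
    rw [norm_div, norm_mul, norm_mul, hp, norm_neg, mul_one]
    have h1 := hlow w hw
    have h2 : ‖(2 : ℂ)‖ = 2 := by norm_num
    rw [h2, div_lt_iff₀ (by linarith)]
    nlinarith
  have hpd : ∀ w : ℂ, ‖w‖ < a → DifferentiableAt ℂ (psi p) w := by
    intro w hw
    unfold psi
    have : I + w ≠ 0 := I_add_ne (by linarith)
    fun_prop (disch := assumption)
  obtain ⟨H, hH1, hH2⟩ := Pool.Agent.H18R3.refl (h := fun w => F (psi p w)) (a := a) (by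
      apply hc.comp
      · intro w hw
        exact (hpd w hw.1).continuousAt.continuousWithinAt
      · intro w hw
        refine ⟨?_, hpsi w hw.1⟩
        rw [mem_closedBall_zero_iff]
        exact (norm_psi hp (by linarith [hw.1])).1 hw.2) (by
      apply hd.comp
      · intro w hw
        exact (hpd w hw.1).differentiableWithinAt
      · intro w hw
        refine ⟨?_, hpsi w hw.1⟩
        rw [mem_ball_zero_iff]
        exact (norm_psi hp (by linarith [hw.1])).2.1 hw.2) (by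
      intro x hx
      have hx' : ‖(x : ℂ)‖ < a := by rwa [Complex.norm_real, Real.norm_eq_abs]
      exact hb _ (hpsi _ hx') ((norm_psi hp (by linarith)).2.2 (by simp)))
  have hH0 : (H 0).im = 0 := by
    rw [hH2 0 (by simpa using ha0) (by simp)]
    exact hb _ (hpsi 0 (by simpa using ha0)) ((norm_psi hp (by simp)).2.2 (by simp))
  have hne : deriv H 0 ≠ 0 := by
    apply deriv_ne_zero_of_im_pos ha0 hH1 hH0
    intro w hw hwi
    rw [hH2 w hw hwi.le]
    exact hi _ (hpsi w hw) ((norm_psi hp (by linarith)).2.1 hwi)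
  have hs : HasStrictDerivAt H (deriv H 0) 0 :=
    (hH1.analyticAt (ball_mem_nhds 0 ha0)).hasStrictDerivAt
  have hn0 : 0 < ‖deriv H 0‖ := norm_pos_iff.mpr hne
  have key := hs.hasStrictFDerivAt.isLittleO.def (half_pos hn0)
  rw [nhds_prod_eq] at key
  obtain ⟨s, hs, hs2⟩ := Filter.mem_prod_same_iff.mp key
  obtain ⟨ρ, hρ, hρ2⟩ := Metric.mem_nhds_iff.mp hs
  -- constants
  set r : ℝ := min (1 / 2) (min (a / 2) (ρ / 2)) with hr
  have hr0 : 0 < r := by positivity
  have hr1 : r ≤ 1 / 2 := min_le_left _ _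
  have hr2 : r ≤ a / 2 := (min_le_right _ _).trans (min_le_left _ _)
  have hr3 : r ≤ ρ / 2 := (min_le_right _ _).trans (min_le_right _ _)
  have hc1 : ∀ z : ℂ, ‖z - p‖ < r → ‖chi p z‖ < a ∧ ‖chi p z‖ < ρ ∧ 1 ≤ ‖p + z‖ ∧ ‖p + z‖ ≤ 3 := by
    intro z hz
    have h1 : 1 ≤ ‖p + z‖ := by
      have e : p + z = 2 * p - (p - z) := by ring
      have h2 := norm_sub_norm_le (2 * p) (p - z)
      rw [e]
      rw [norm_mul, hp, norm_sub_rev p z] at h2
      have h3 : ‖(2 : ℂ)‖ = 2 := by norm_num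
      rw [h3] at h2
      linarith
    have h2 : ‖p + z‖ ≤ 3 := by
      have e : p + z = 2 * p + (z - p) := by ring
      have h2 := norm_add_le (2 * p) (z - p)
      rw [e]
      rw [norm_mul, hp] at h2
      have h3 : ‖(2 : ℂ)‖ = 2 := by norm_num
      rw [h3] at h2
      linarith
    have h3 : ‖chi p z‖ ≤ ‖z - p‖ := by
      unfold chi
      rw [norm_div, norm_mul, Complex.norm_I, one_mul, norm_sub_rev, div_le_iff₀ (by linarith)]
      nlinarith [norm_nonneg (z - p)]
    exact ⟨by linarith, by linarith, h1, h2⟩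
  set m := ‖deriv H 0‖ with hm
  refine ⟨r, 1 + 9 * m⁻¹ + 3 * m, hr0, by
    have : 0 < m⁻¹ := inv_pos.mpr hn0
    linarith, ?_⟩
  rintro z ⟨hz1, hz2⟩ z' ⟨hz1', hz2'⟩
  rw [mem_closedBall_zero_iff] at hz1 hz1'
  rw [mem_ball, dist_eq_norm] at hz2 hz2'
  obtain ⟨g1, g2, g3, g4⟩ := hc1 z hz2
  obtain ⟨g1', g2', g3', g4'⟩ := hc1 z' hz2'
  have eF : H (chi p z) = F z := by
    rw [hH2 _ g1 (chi_im hp (by linarith) hz1), psi_chi hp (by linarith)]
  have eF' : H (chi p z') = F z' := by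
    rw [hH2 _ g1' (chi_im hp (by linarith) hz1'), psi_chi hp (by linarith)]
  have h1 : ((chi p z, chi p z') : ℂ × ℂ) ∈ s ×ˢ s :=
    ⟨hρ2 (by rw [mem_ball_zero_iff]; exact g2), hρ2 (by rw [mem_ball_zero_iff]; exact g2')⟩
  have h2 := hs2 h1
  simp only [mem_setOf_eq] at h2
  rw [eF, eF'] at h2
  have h3 : ‖chi p z - chi p z'‖ = 2 * ‖z - z'‖ / (‖p + z‖ * ‖p + z'‖) := by
    rw [chi_sub hp (by linarith) (by linarith), norm_div, norm_mul, norm_mul, norm_mul, norm_mul,
      hp, Complex.norm_I, norm_sub_rev z' z]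
    have h3 : ‖(2 : ℂ)‖ = 2 := by norm_num
    rw [h3]
    ring
  have n0 := norm_nonneg (z - z')
  have h4 : ‖chi p z - chi p z'‖ ≤ 2 * ‖z - z'‖ := by
    rw [h3, div_le_iff₀ (by nlinarith)]
    have : 1 ≤ ‖p + z‖ * ‖p + z'‖ := by nlinarith
    nlinarith
  have h5 : 2 * ‖z - z'‖ ≤ 9 * ‖chi p z - chi p z'‖ := by
    rw [h3, ← mul_div_assoc, le_div_iff₀ (by nlinarith)]
    have : ‖p + z‖ * ‖p + z'‖ ≤ 9 := by nlinarith
    nlinarith
  set q := chi p z - chi p z' with hq
  have h6 : ‖F z - F z' - q * deriv H 0‖ ≤ m / 2 * ‖q‖ := by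
    have : q • deriv H 0 = q * deriv H 0 := smul_eq_mul _ _
    simpa [hq] using h2
  have h7 : ‖q * deriv H 0‖ = ‖q‖ * m := norm_mul _ _
  have h8 : ‖F z - F z'‖ ≤ 3 / 2 * m * ‖q‖ := by
    have e : F z - F z' = (F z - F z' - q * deriv H 0) + q * deriv H 0 := by ring
    rw [e]
    refine (norm_add_le _ _).trans ?_
    rw [h7]
    linarith
  have h9 : m / 2 * ‖q‖ ≤ ‖F z - F z'‖ := by
    have e : q * deriv H 0 = (F z - F z') - (F z - F z' - q * deriv H 0) := by ring
    have h10 := norm_sub_le (F z - F z') (F z - F z' - q * deriv H 0)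
    rw [← e, h7] at h10
    linarith
  have nF := norm_nonneg (F z - F z')
  constructor
  · have h11 : ‖q‖ ≤ 2 * m⁻¹ * ‖F z - F z'‖ := by
      have : m / 2 * ‖q‖ * (2 * m⁻¹) ≤ ‖F z - F z'‖ * (2 * m⁻¹) :=
        mul_le_mul_of_nonneg_right h9 (by positivity)
      have e : m / 2 * ‖q‖ * (2 * m⁻¹) = ‖q‖ := by field_simp
      rw [e] at this
      linarith
    have h12 : ‖z - z'‖ ≤ 9 * m⁻¹ * ‖F z - F z'‖ := by linarith
    refine h12.trans (mul_le_mul_of_nonneg_right ?_ nF)
    linarith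
  · have h12 : ‖F z - F z'‖ ≤ 3 * m * ‖z - z'‖ := by
      refine h8.trans ?_
      have := mul_le_mul_of_nonneg_left h4 (show 0 ≤ 3 / 2 * m by positivity)
      linarith
    refine h12.trans (mul_le_mul_of_nonneg_right ?_ n0)
    have : 0 < m⁻¹ := inv_pos.mpr hn0
    linarith

end Pool.Agent.J6H18.RC
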