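import Pool.Agent.J6H18.RC.Loc
import Pool.Agent.Helper114.SideLog

/-!
Distortion of conformal maps from the disc onto a rectangle.
-/

set_option autoImplicit false

namespace Pool.Agent.J6H18.RC

open Complex Metric Set Filter Topology

/-- distance to the vertical sides -/
noncomputable def dX (x1 x2 : ℝ) (z : ℂ) : ℝ := min (z.re - x1) (x2 - z.re)
/-- distance to the horizontal sides -/
noncomputable def dY (y1 y2 : ℝ) (z : ℂ) : ℝ := min (z.im - y1) (y2 - z.im)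
/-- distance to the nearest corner, in the sup norm -/
noncomputable def bR (x1 x2 y1 y2 : ℝ) (z : ℂ) : ℝ := max (dX x1 x2 z) (dY y1 y2 z)

/-- the open rectangle -/
def Ro (x1 x2 y1 y2 : ℝ) : Set ℂ := {z | (x1 < z.re ∧ z.re < x2) ∧ (y1 < z.im ∧ z.im < y2)}
/-- the closed rectangle -/
def Rc (x1 x2 y1 y2 : ℝ) : Set ℂ := {z | (x1 ≤ z.re ∧ z.re ≤ x2) ∧ (y1 ≤ z.im ∧ z.im ≤ y2)}

/-- `f` is a conformal map of the disc onto the rectangle, up to the boundary -/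
structure RM (f : ℂ → ℂ) (x1 x2 y1 y2 : ℝ) : Prop where
  hx : x1 < x2
  hy : y1 < y2
  inj : InjOn f (closedBall 0 1)
  cont : ContinuousOn f (closedBall 0 1)
  diff : DifferentiableOn ℂ f (ball 0 1)
  img : f '' ball 0 1 = Ro x1 x2 y1 y2

theorem abs_re_sub_le (z w : ℂ) : |z.re - w.re| ≤ ‖z - w‖ := by
  rw [← Complex.sub_re]
  exact Complex.abs_re_le_norm _

theorem abs_im_sub_le (z w : ℂ) : |z.im - w.im| ≤ ‖z - w‖ := by
  rw [← Complex.sub_im]
  exact Complex.abs_im_le_norm _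

theorem dX_lip (x1 x2 : ℝ) (z w : ℂ) : dX x1 x2 z ≤ dX x1 x2 w + ‖z - w‖ := by
  have h := abs_le.mp (abs_re_sub_le z w)
  unfold dX
  rcases min_choice (w.re - x1) (x2 - w.re) with h1 | h1
  · rw [h1]
    have := min_le_left (z.re - x1) (x2 - z.re)
    linarith
  · rw [h1]
    have := min_le_right (z.re - x1) (x2 - z.re)
    linarith

theorem dY_lip (y1 y2 : ℝ) (z w : ℂ) : dY y1 y2 z ≤ dY y1 y2 w + ‖z - w‖ := by
  have h := abs_le.mp (abs_im_sub_le z w)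
  unfold dY
  rcases min_choice (w.im - y1) (y2 - w.im) with h1 | h1
  · rw [h1]
    have := min_le_left (z.im - y1) (y2 - z.im)
    linarith
  · rw [h1]
    have := min_le_right (z.im - y1) (y2 - z.im)
    linarith

theorem bR_lip (x1 x2 y1 y2 : ℝ) (z w : ℂ) : bR x1 x2 y1 y2 z ≤ bR x1 x2 y1 y2 w + ‖z - w‖ := by
  unfold bR
  apply max_le
  · have := dX_lip x1 x2 z w
    have := le_max_left (dX x1 x2 w) (dY y1 y2 w)
    linarith
  · have := dY_lip y1 y2 z w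
    have := le_max_right (dX x1 x2 w) (dY y1 y2 w)
    linarith

theorem Rc_closed (x1 x2 y1 y2 : ℝ) : IsClosed (Rc x1 x2 y1 y2) := by
  have h1 : IsClosed {z : ℂ | x1 ≤ z.re ∧ z.re ≤ x2} :=
    (isClosed_le continuous_const continuous_re).inter (isClosed_le continuous_re continuous_const)
  have h2 : IsClosed {z : ℂ | y1 ≤ z.im ∧ z.im ≤ y2} :=
    (isClosed_le continuous_const continuous_im).inter (isClosed_le continuous_im continuous_const)
  exact h1.inter h2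

theorem Rc_sub_closure {x1 x2 y1 y2 : ℝ} (hx : x1 < x2) (hy : y1 < y2) :
    Rc x1 x2 y1 y2 ⊆ closure (Ro x1 x2 y1 y2) := by
  intro z hz
  have h : closure (Ro x1 x2 y1 y2) = (closure (Ioo x1 x2)) ×ℂ (closure (Ioo y1 y2)) := by
    rw [← Complex.closure_reProdIm]
    rfl
  rw [h, closure_Ioo hx.ne, closure_Ioo hy.ne, mem_reProdIm]
  exact hz

namespace RM
variable {f : ℂ → ℂ} {x1 x2 y1 y2 : ℝ}

theorem img_disc (h : RM f x1 x2 y1 y2) : f '' closedBall 0 1 = Rc x1 x2 y1 y2 := by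
  apply Subset.antisymm
  · -- closure
    have h1 : closedBall (0 : ℂ) 1 ⊆ closure (ball 0 1) := by
      rw [closure_ball (0 : ℂ) one_ne_zero]
    have h2 : f '' closedBall 0 1 ⊆ closure (f '' ball 0 1) := by
      rintro z ⟨ζ, hζ, rfl⟩
      have h3 : ContinuousWithinAt f (ball 0 1) ζ := (h.cont ζ hζ).mono ball_subset_closedBall
      exact h3.mem_closure_image (h1 hζ)
    rw [h.img] at h2
    refine h2.trans (closure_minimal ?_ (Rc_closed x1 x2 y1 y2))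
    rintro z ⟨⟨a, b⟩, c, d⟩
    exact ⟨⟨a.le, b.le⟩, c.le, d.le⟩
  · have hc : IsCompact (f '' closedBall (0 : ℂ) 1) :=
      (isCompact_closedBall 0 1).image_of_continuousOn h.cont
    refine (Rc_sub_closure h.hx h.hy).trans (closure_minimal ?_ hc.isClosed)
    rw [← h.img]
    exact image_mono ball_subset_closedBall

theorem mem_Rc (h : RM f x1 x2 y1 y2) {ζ : ℂ} (hζ : ‖ζ‖ ≤ 1) : f ζ ∈ Rc x1 x2 y1 y2 := by
  rw [← h.img_disc]
  exact mem_image_of_mem f (by simpa using hζ)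

theorem mem_Ro (h : RM f x1 x2 y1 y2) {ζ : ℂ} (hζ : ‖ζ‖ < 1) : f ζ ∈ Ro x1 x2 y1 y2 := by
  rw [← h.img]
  exact mem_image_of_mem f (by simpa using hζ)

theorem not_Ro (h : RM f x1 x2 y1 y2) {ζ : ℂ} (hζ : ‖ζ‖ = 1) : f ζ ∉ Ro x1 x2 y1 y2 := by
  rw [← h.img]
  rintro ⟨ω, hω, he⟩
  have h1 := h.inj (ball_subset_closedBall hω) (by simp [hζ]) he
  rw [h1, mem_ball_zero_iff, hζ] at hω
  exact lt_irrefl _ hω

theorem on_sphere (h : RM f x1 x2 y1 y2) {z : ℂ} (hz : z ∈ Rc x1 x2 y1 y2)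
    (hz' : z ∉ Ro x1 x2 y1 y2) : ∃ ω : ℂ, ‖ω‖ = 1 ∧ f ω = z := by
  rw [← h.img_disc] at hz
  obtain ⟨ω, hω, rfl⟩ := hz
  refine ⟨ω, ?_, rfl⟩
  rw [mem_closedBall_zero_iff] at hω
  rcases hω.lt_or_eq with h1 | h1
  · exact absurd (h.mem_Ro h1) hz'
  · exact h1

theorem dX_nonneg (h : RM f x1 x2 y1 y2) {ζ : ℂ} (hζ : ‖ζ‖ ≤ 1) : 0 ≤ dX x1 x2 (f ζ) := by
  obtain ⟨⟨a, b⟩, -⟩ := h.mem_Rc hζ
  exact le_min (by linarith) (by linarith)

theorem dY_nonneg (h : RM f x1 x2 y1 y2) {ζ : ℂ} (hζ : ‖ζ‖ ≤ 1) : 0 ≤ dY y1 y2 (f ζ) := by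
  obtain ⟨-, a, b⟩ := h.mem_Rc hζ
  exact le_min (by linarith) (by linarith)

theorem b_nonneg (h : RM f x1 x2 y1 y2) {ζ : ℂ} (hζ : ‖ζ‖ ≤ 1) : 0 ≤ bR x1 x2 y1 y2 (f ζ) :=
  (h.dX_nonneg hζ).trans (le_max_left _ _)

end RM

/-- the local estimate -/
def LE (f : ℂ → ℂ) (b : ℂ → ℝ) (ζ : ℂ) : Prop := ∃ r C : ℝ, 0 < r ∧ 1 ≤ C ∧
  ∀ z ∈ closedBall (0 : ℂ) 1 ∩ ball ζ r, ∀ w ∈ closedBall (0 : ℂ) 1 ∩ ball ζ r,
    ‖z - w‖ ≤ C * (‖f z - f w‖ * (b (f z) + ‖f z - f w‖)) ∧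
      ‖f z - f w‖ * (b (f z) + ‖f z - f w‖) ≤ C * ‖z - w‖

/-- from local to global -/
theorem glob {f : ℂ → ℂ} {b : ℂ → ℝ} (hf : ContinuousOn f (closedBall 0 1))
    (hi : InjOn f (closedBall 0 1)) (hb : ∀ z w, b z ≤ b w + ‖z - w‖)
    (hb0 : ∀ ζ ∈ closedBall (0 : ℂ) 1, 0 ≤ b (f ζ)) (hloc : ∀ ζ ∈ closedBall (0 : ℂ) 1, LE f b ζ) :
    ∃ C : ℝ, 1 ≤ C ∧ ∀ z ∈ closedBall (0 : ℂ) 1, ∀ w ∈ closedBall (0 : ℂ) 1,
      ‖z - w‖ ≤ C * (‖f z - f w‖ * (b (f z) + ‖f z - f w‖)) ∧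
      ‖f z - f w‖ * (b (f z) + ‖f z - f w‖) ≤ C * ‖z - w‖ := by
  set X : Set ℂ := closedBall 0 1 with hX
  have hbc : Continuous b := by
    have h1 : LipschitzWith 1 b := by
      refine LipschitzWith.of_dist_le_mul fun z w => ?_
      rw [Real.dist_eq, dist_eq_norm, abs_le]
      have h2 := hb z w
      have h3 := hb w z
      rw [norm_sub_rev] at h3
      simp only [NNReal.coe_one, one_mul]
      constructor <;> linarith
    exact h1.continuous
  have hk : ContinuousOn (fun p : ℂ × ℂ => ‖p.1 - p.2‖) (X ×ˢ X) := by fun_prop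
  have hf1 : ContinuousOn (fun p : ℂ × ℂ => f p.1) (X ×ˢ X) :=
    hf.comp continuousOn_fst (fun p hp => hp.1)
  have hf2 : ContinuousOn (fun p : ℂ × ℂ => f p.2) (X ×ˢ X) :=
    hf.comp continuousOn_snd (fun p hp => hp.2)
  have hn : ContinuousOn (fun p : ℂ × ℂ => ‖f p.1 - f p.2‖) (X ×ˢ X) := (hf1.sub hf2).norm
  have hh : ContinuousOn (fun p : ℂ × ℂ => ‖f p.1 - f p.2‖ * (b (f p.1) + ‖f p.1 - f p.2‖))
      (X ×ˢ X) := hn.mul ((hbc.comp_continuousOn hf1).add hn)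
  have hcomp : IsCompact (X ×ˢ X) := (isCompact_closedBall 0 1).prod (isCompact_closedBall 0 1)
  have key := hcomp.induction_on (p := fun t => ∃ C : ℝ, 1 ≤ C ∧ ∀ p ∈ t, p ∈ X ×ˢ X →
      ‖p.1 - p.2‖ ≤ C * (‖f p.1 - f p.2‖ * (b (f p.1) + ‖f p.1 - f p.2‖)) ∧
      ‖f p.1 - f p.2‖ * (b (f p.1) + ‖f p.1 - f p.2‖) ≤ C * ‖p.1 - p.2‖)
    ⟨1, le_rfl, fun p hp => absurd hp (notMem_empty p)⟩
    (fun s t hst ⟨C, hC, h⟩ => ⟨C, hC, fun p hp => h p (hst hp)⟩)
    (fun s t ⟨C, hC, h⟩ ⟨C', hC', h'⟩ => by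
      refine ⟨C + C', by linarith, ?_⟩
      intro p hp hpX
      have e0 : 0 ≤ ‖f p.1 - f p.2‖ * (b (f p.1) + ‖f p.1 - f p.2‖) :=
        mul_nonneg (norm_nonneg _) (add_nonneg (hb0 _ hpX.1) (norm_nonneg _))
      have e1 := norm_nonneg (p.1 - p.2)
      rcases hp with hp | hp
      · obtain ⟨g1, g2⟩ := h p hp hpX
        exact ⟨g1.trans (mul_le_mul_of_nonneg_right (by linarith) e0),
          g2.trans (mul_le_mul_of_nonneg_right (by linarith) e1)⟩
      · obtain ⟨g1, g2⟩ := h' p hp hpX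
        exact ⟨g1.trans (mul_le_mul_of_nonneg_right (by linarith) e0),
          g2.trans (mul_le_mul_of_nonneg_right (by linarith) e1)⟩)
    (fun q hq => by
      obtain ⟨ζ, ω⟩ := q
      obtain ⟨hζ, hω⟩ := hq
      simp only at hζ hω
      by_cases he : ζ = ω
      · subst he
        obtain ⟨r, C, hr, hC, hl⟩ := hloc ζ hζ
        refine ⟨ball ζ r ×ˢ ball ζ r, mem_nhdsWithin_of_mem_nhds
          (prod_mem_nhds (ball_mem_nhds ζ hr) (ball_mem_nhds ζ hr)), C, hC, ?_⟩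
        intro p hp hpX
        exact hl p.1 ⟨hpX.1, hp.1⟩ p.2 ⟨hpX.2, hp.2⟩
      · have hne : f ζ ≠ f ω := fun h => he (hi hζ hω h)
        have k0 : 0 < ‖ζ - ω‖ := norm_pos_iff.mpr (sub_ne_zero.mpr he)
        have n0 : 0 < ‖f ζ - f ω‖ := norm_pos_iff.mpr (sub_ne_zero.mpr hne)
        have h0 : 0 < ‖f ζ - f ω‖ * (b (f ζ) + ‖f ζ - f ω‖) :=
          mul_pos n0 (by have := hb0 ζ hζ; linarith)
        have c1 := (hk (ζ, ω) ⟨hζ, hω⟩)
        have c2 := (hh (ζ, ω) ⟨hζ, hω⟩)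
        have e1 := c1.eventually (Ioo_mem_nhds (show ‖ζ - ω‖ / 2 < ‖ζ - ω‖ by linarith)
          (show ‖ζ - ω‖ < 2 * ‖ζ - ω‖ by linarith))
        have e2 := c2.eventually (Ioo_mem_nhds
          (show ‖f ζ - f ω‖ * (b (f ζ) + ‖f ζ - f ω‖) / 2 < ‖f ζ - f ω‖ * (b (f ζ) + ‖f ζ - f ω‖)
            by linarith)
          (show ‖f ζ - f ω‖ * (b (f ζ) + ‖f ζ - f ω‖) <
            2 * (‖f ζ - f ω‖ * (b (f ζ) + ‖f ζ - f ω‖)) by linarith))
        set K := ‖ζ - ω‖ with hK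
        set H := ‖f ζ - f ω‖ * (b (f ζ) + ‖f ζ - f ω‖) with hH
        refine ⟨_, e1.and e2, 1 + 4 * K / H + 4 * H / K, by
          have : 0 < 4 * K / H := by positivity
          have : 0 < 4 * H / K := by positivity
          linarith, ?_⟩
        rintro p ⟨⟨g1, g2⟩, g3, g4⟩ _
        constructor
        · have : 2 * K ≤ 4 * K / H * (‖f p.1 - f p.2‖ * (b (f p.1) + ‖f p.1 - f p.2‖)) := by
            calc 2 * K = 4 * K / H * (H / 2) := by field_simp; ring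
              _ ≤ _ := mul_le_mul_of_nonneg_left g3.le (by positivity)
          have g5 : 0 ≤ ‖f p.1 - f p.2‖ * (b (f p.1) + ‖f p.1 - f p.2‖) := by linarith
          have g6 : 0 ≤ 4 * H / K * (‖f p.1 - f p.2‖ * (b (f p.1) + ‖f p.1 - f p.2‖)) := by
            positivity
          linarith
        · have : 2 * H ≤ 4 * H / K * ‖p.1 - p.2‖ := by
            calc 2 * H = 4 * H / K * (K / 2) := by field_simp; ring
              _ ≤ _ := mul_le_mul_of_nonneg_left g1.le (by positivity)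
          have g5 : 0 ≤ ‖p.1 - p.2‖ := norm_nonneg _
          have g6 : 0 ≤ 4 * K / H * ‖p.1 - p.2‖ := by positivity
          linarith)
  obtain ⟨C, hC, h⟩ := key
  exact ⟨C, hC, fun z hz w hw => h (z, w) ⟨hz, hw⟩ ⟨hz, hw⟩⟩

/-- local estimate from a bi-Lipschitz estimate, away from the corners -/
theorem LE_of_bilip {f : ℂ → ℂ} {b : ℂ → ℝ} {ζ : ℂ} (hζ : ζ ∈ closedBall (0 : ℂ) 1)
    (hb : ∀ z w, b z ≤ b w + ‖z - w‖) (hb0 : 0 < b (f ζ)) {r C : ℝ} (hr : 0 < r) (hC : 1 ≤ C)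
    (h : ∀ z ∈ closedBall (0 : ℂ) 1 ∩ ball ζ r, ∀ w ∈ closedBall (0 : ℂ) 1 ∩ ball ζ r,
      ‖z - w‖ ≤ C * ‖f z - f w‖ ∧ ‖f z - f w‖ ≤ C * ‖z - w‖) : LE f b ζ := by
  have hC0 : 0 < C := by linarith
  set β := b (f ζ) with hβ
  set s := min r (β / (4 * C)) with hs
  have hs0 : 0 < s := lt_min hr (by positivity)
  have hsr : s ≤ r := min_le_left _ _
  have hsb : C * s ≤ β / 4 := by
    have h1 : s ≤ β / (4 * C) := min_le_right _ _
    calc C * s ≤ C * (β / (4 * C)) := mul_le_mul_of_nonneg_left h1 hC0.le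
      _ = β / 4 := by field_simp
  refine ⟨s, C * (1 + 2 / β + 2 * β), hs0, ?_, ?_⟩
  · have : 0 < 2 / β := by positivity
    nlinarith
  · rintro z ⟨hz, hz'⟩ w ⟨hw, hw'⟩
    have hzr : z ∈ closedBall (0 : ℂ) 1 ∩ ball ζ r := ⟨hz, ball_subset_ball hsr hz'⟩
    have hwr : w ∈ closedBall (0 : ℂ) 1 ∩ ball ζ r := ⟨hw, ball_subset_ball hsr hw'⟩
    have hζr : ζ ∈ closedBall (0 : ℂ) 1 ∩ ball ζ r := ⟨hζ, mem_ball_self hr⟩
    obtain ⟨g1, g2⟩ := h z hzr w hwr
    have g3 := (h z hzr ζ hζr).2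
    have g4 := (h w hwr ζ hζr).2
    rw [mem_ball, dist_eq_norm] at hz' hw'
    have g5 : ‖f z - f ζ‖ ≤ β / 4 := by
      have := mul_le_mul_of_nonneg_left hz'.le hC0.le
      linarith
    have g6 : ‖f w - f ζ‖ ≤ β / 4 := by
      have := mul_le_mul_of_nonneg_left hw'.le hC0.le
      linarith
    have g7 := hb (f z) (f ζ)
    have g8 := hb (f ζ) (f z)
    rw [norm_sub_rev] at g8
    have g9 : ‖f z - f w‖ ≤ β / 2 := by
      have e : f z - f w = (f z - f ζ) - (f w - f ζ) := by ring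
      rw [e]
      refine (norm_sub_le _ _).trans ?_
      linarith
    have n0 := norm_nonneg (f z - f w)
    have n1 := norm_nonneg (z - w)
    have lo : β / 2 ≤ b (f z) + ‖f z - f w‖ := by linarith
    have hi : b (f z) + ‖f z - f w‖ ≤ 2 * β := by linarith
    constructor
    · have h1 : ‖f z - f w‖ * (β / 2) ≤ ‖f z - f w‖ * (b (f z) + ‖f z - f w‖) :=
        mul_le_mul_of_nonneg_left lo n0
      have h2 : ‖f z - f w‖ = 2 / β * (‖f z - f w‖ * (β / 2)) := by field_simp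
      have h3 : 0 ≤ ‖f z - f w‖ * (b (f z) + ‖f z - f w‖) := by nlinarith
      calc ‖z - w‖ ≤ C * ‖f z - f w‖ := g1
        _ = C * (2 / β * (‖f z - f w‖ * (β / 2))) := by rw [← h2]
        _ ≤ C * (2 / β * (‖f z - f w‖ * (b (f z) + ‖f z - f w‖))) := by
            apply mul_le_mul_of_nonneg_left _ hC0.le
            exact mul_le_mul_of_nonneg_left h1 (by positivity)
        _ = C * (2 / β) * (‖f z - f w‖ * (b (f z) + ‖f z - f w‖)) := by ring
        _ ≤ _ := by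
            apply mul_le_mul_of_nonneg_right _ h3
            apply mul_le_mul_of_nonneg_left _ hC0.le
            linarith
    · calc ‖f z - f w‖ * (b (f z) + ‖f z - f w‖) ≤ (C * ‖z - w‖) * (2 * β) :=
            mul_le_mul g2 hi (by linarith) (by positivity)
        _ = C * (2 * β) * ‖z - w‖ := by ring
        _ ≤ _ := by
            apply mul_le_mul_of_nonneg_right _ n1
            apply mul_le_mul_of_nonneg_left _ hC0.le
            have : 0 < 2 / β := by positivity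
            linarith

/-- interior points -/
theorem LE_int {f : ℂ → ℂ} {b : ℂ → ℝ} {ζ : ℂ} (hζ : ‖ζ‖ < 1)
    (hb : ∀ z w, b z ≤ b w + ‖z - w‖) (hb0 : 0 < b (f ζ)) (hd : DifferentiableOn ℂ f (ball 0 1))
    (hi : InjOn f (ball 0 1)) : LE f b ζ := by
  have hζ' : ζ ∈ ball (0 : ℂ) 1 := by simpa using hζ
  have hne : deriv f ζ ≠ 0 :=
    Pool.Agent.Helper114.SideLog.deriv_ne_zero_of_injOn isOpen_ball hd hi hζ'
  have hs : HasStrictDerivAt f (deriv f ζ) ζ :=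
    (hd.analyticAt (isOpen_ball.mem_nhds hζ')).hasStrictDerivAt
  set m := ‖deriv f ζ‖ with hm
  have hn0 : 0 < m := norm_pos_iff.mpr hne
  have key := hs.hasStrictFDerivAt.isLittleO.def (half_pos hn0)
  rw [nhds_prod_eq] at key
  obtain ⟨s, hs, hs2⟩ := Filter.mem_prod_same_iff.mp key
  obtain ⟨ρ, hρ, hρ2⟩ := Metric.mem_nhds_iff.mp hs
  refine LE_of_bilip (C := 1 + 2 * m⁻¹ + 2 * m) (ball_subset_closedBall hζ') hb hb0 hρ ?_ ?_
  · have : 0 < m⁻¹ := inv_pos.mpr hn0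
    linarith
  · rintro z ⟨-, hz⟩ w ⟨-, hw⟩
    have h1 : ((z, w) : ℂ × ℂ) ∈ s ×ˢ s := ⟨hρ2 hz, hρ2 hw⟩
    have h2 := hs2 h1
    have h6 : ‖f z - f w - (z - w) * deriv f ζ‖ ≤ m / 2 * ‖z - w‖ := by
      simpa using h2
    set q := z - w with hq
    have h7 : ‖q * deriv f ζ‖ = ‖q‖ * m := norm_mul _ _
    have n0 := norm_nonneg q
    have n1 := norm_nonneg (f z - f w)
    have hmi : 0 < m⁻¹ := inv_pos.mpr hn0
    have h8 : ‖f z - f w‖ ≤ 3 / 2 * m * ‖q‖ := by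
      have e : f z - f w = (f z - f w - q * deriv f ζ) + q * deriv f ζ := by ring
      rw [e]
      refine (norm_add_le _ _).trans ?_
      rw [h7]
      linarith
    have h9 : m / 2 * ‖q‖ ≤ ‖f z - f w‖ := by
      have e : q * deriv f ζ = (f z - f w) - (f z - f w - q * deriv f ζ) := by ring
      have h10 := norm_sub_le (f z - f w) (f z - f w - q * deriv f ζ)
      rw [← e, h7] at h10
      linarith
    constructor
    · have h11 : m / 2 * ‖q‖ * (2 * m⁻¹) ≤ ‖f z - f w‖ * (2 * m⁻¹) :=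
        mul_le_mul_of_nonneg_right h9 (by positivity)
      have e : m / 2 * ‖q‖ * (2 * m⁻¹) = ‖q‖ := by field_simp
      rw [e] at h11
      nlinarith
    · nlinarith

/-- points on an open side -/
theorem LE_side {f : ℂ → ℂ} {b : ℂ → ℝ} {ζ : ℂ} (hζ : ‖ζ‖ = 1)
    (hb : ∀ z w, b z ≤ b w + ‖z - w‖) (hb0 : 0 < b (f ζ)) (hf : ContinuousOn f (closedBall 0 1))
    (hd : DifferentiableOn ℂ f (ball 0 1)) {α β : ℂ} (hα : ‖α‖ = 1) {δ : ℝ} (hδ : 0 < δ)
    (h1 : ∀ z ∈ ball ζ δ, ‖z‖ < 1 → 0 < (α * f z + β).im)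
    (h2 : ∀ z ∈ ball ζ δ, ‖z‖ = 1 → (α * f z + β).im = 0) : LE f b ζ := by
  have hf' : ContinuousOn f (closedBall (0 : ℂ) 1 ∩ ball ζ δ) := hf.mono inter_subset_left
  have hd' : DifferentiableOn ℂ f (ball (0 : ℂ) 1 ∩ ball ζ δ) := hd.mono inter_subset_left
  obtain ⟨r, C, hr, hC, h⟩ := loc (F := fun z => α * f z + β) hζ hδ
    ((continuousOn_const.mul hf').add continuousOn_const) ((hd'.const_mul α).add_const β) h1 h2
  refine LE_of_bilip (C := C) (by simp [hζ]) hb hb0 hr hC ?_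
  intro z hz w hw
  have h3 := h z hz w hw
  have e : α * f z + β - (α * f w + β) = α * (f z - f w) := by ring
  rw [e, norm_mul, hα, one_mul] at h3
  exact h3

/-- corners -/
theorem LE_corner {f : ℂ → ℂ} {b : ℂ → ℝ} {ζ : ℂ} (hζ : ‖ζ‖ = 1)
    (hf : ContinuousOn f (closedBall 0 1)) (hd : DifferentiableOn ℂ f (ball 0 1)) {c : ℂ}
    {s t : ℝ} (hs : s = 1 ∨ s = -1) (ht : t = 1 ∨ t = -1) {δ : ℝ} (hδ : 0 < δ)
    (h0 : ∀ z ∈ ball ζ δ, ‖z‖ ≤ 1 → 0 ≤ s * (f z - c).re ∧ 0 ≤ t * (f z - c).im ∧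
      b (f z) = max (s * (f z - c).re) (t * (f z - c).im))
    (h1 : ∀ z ∈ ball ζ δ, ‖z‖ < 1 → 0 < s * (f z - c).re ∧ 0 < t * (f z - c).im)
    (h2 : ∀ z ∈ ball ζ δ, ‖z‖ = 1 → (f z - c).re = 0 ∨ (f z - c).im = 0) : LE f b ζ := by
  have hf' : ContinuousOn f (closedBall (0 : ℂ) 1 ∩ ball ζ δ) := hf.mono inter_subset_left
  have hd' : DifferentiableOn ℂ f (ball (0 : ℂ) 1 ∩ ball ζ δ) := hd.mono inter_subset_left
  have him : ∀ z, (((s * t : ℝ) : ℂ) * (f z - c) ^ 2).im =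
      2 * ((s * (f z - c).re) * (t * (f z - c).im)) := by
    intro z
    rw [mul_im, ofReal_re, ofReal_im, zero_mul, add_zero, sq, mul_im]
    ring
  have hst : ‖((s * t : ℝ) : ℂ)‖ = 1 := by
    rw [Complex.norm_real, Real.norm_eq_abs]
    rcases hs with rfl | rfl <;> rcases ht with rfl | rfl <;> norm_num
  obtain ⟨r, C, hr, hC, h⟩ := loc (F := fun z => ((s * t : ℝ) : ℂ) * (f z - c) ^ 2) hζ hδ
    (continuousOn_const.mul ((hf'.sub continuousOn_const).pow 2))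
    (((hd'.sub_const c).pow 2).const_mul _)
    (fun z hz hz1 => by
      obtain ⟨g1, g2⟩ := h1 z hz hz1
      show 0 < (((s * t : ℝ) : ℂ) * (f z - c) ^ 2).im
      rw [him]
      positivity)
    (fun z hz hz1 => by
      show (((s * t : ℝ) : ℂ) * (f z - c) ^ 2).im = 0
      rw [him]
      rcases h2 z hz hz1 with h3 | h3 <;> rw [h3] <;> ring)
  refine ⟨min r δ, 8 * C, lt_min hr hδ, by linarith, ?_⟩
  rintro z ⟨hz, hz'⟩ w ⟨hw, hw'⟩
  have hC0 : 0 < C := by linarith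
  obtain ⟨k1, k2⟩ := h z ⟨hz, ball_subset_ball (min_le_left _ _) hz'⟩ w
    ⟨hw, ball_subset_ball (min_le_left _ _) hw'⟩
  obtain ⟨a1, a2, a3⟩ := h0 z (ball_subset_ball (min_le_right _ _) hz') (by simpa using hz)
  obtain ⟨b1, b2, -⟩ := h0 w (ball_subset_ball (min_le_right _ _) hw') (by simpa using hw)
  have e : ((s * t : ℝ) : ℂ) * (f z - c) ^ 2 - ((s * t : ℝ) : ℂ) * (f w - c) ^ 2 =
      ((s * t : ℝ) : ℂ) * ((f z - f w) * ((f z - c) + (f w - c))) := by ring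
  rw [e, norm_mul, hst, one_mul, norm_mul] at k1 k2
  set p := f z - c with hp
  set q := f w - c with hq
  have epq : f z - f w = p - q := by rw [hp, hq]; ring
  -- geometry
  have n1 := norm_nonneg (f z - f w)
  have n2 := norm_nonneg (z - w)
  have hpn : ‖p‖ ≤ s * p.re + t * p.im := by
    have h3 := Complex.norm_le_abs_re_add_abs_im p
    have h4 : |p.re| = s * p.re := by
      rcases hs with rfl | rfl
      · rw [abs_of_nonneg (by linarith)]; ring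
      · rw [abs_of_nonpos (by linarith)]; ring
    have h5 : |p.im| = t * p.im := by
      rcases ht with rfl | rfl
      · rw [abs_of_nonneg (by linarith)]; ring
      · rw [abs_of_nonpos (by linarith)]; ring
    linarith
  have hsum : s * p.re + s * q.re ≤ ‖p + q‖ ∧ t * p.im + t * q.im ≤ ‖p + q‖ := by
    constructor
    · have h3 := abs_le.mp (Complex.abs_re_le_norm (p + q))
      rw [Complex.add_re] at h3
      rcases hs with rfl | rfl <;> linarith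
    · have h3 := abs_le.mp (Complex.abs_im_le_norm (p + q))
      rw [Complex.add_im] at h3
      rcases ht with rfl | rfl <;> linarith
  have hqn : ‖q‖ ≤ s * q.re + t * q.im := by
    have h3 := Complex.norm_le_abs_re_add_abs_im q
    have h4 : |q.re| = s * q.re := by
      rcases hs with rfl | rfl
      · rw [abs_of_nonneg (by linarith)]; ring
      · rw [abs_of_nonpos (by linarith)]; ring
    have h5 : |q.im| = t * q.im := by
      rcases ht with rfl | rfl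
      · rw [abs_of_nonneg (by linarith)]; ring
      · rw [abs_of_nonpos (by linarith)]; ring
    linarith
  have hb1 : b (f z) ≤ ‖p + q‖ := by
    rw [a3]
    apply max_le
    · linarith [hsum.1]
    · linarith [hsum.2]
  have hd1 : ‖f z - f w‖ ≤ 2 * ‖p + q‖ := by
    rw [epq]
    refine (norm_sub_le _ _).trans ?_
    linarith [hsum.1, hsum.2]
  have hb2 : s * p.re + t * p.im ≤ 2 * b (f z) := by
    rw [a3]
    have := le_max_left (s * p.re) (t * p.im)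
    have := le_max_right (s * p.re) (t * p.im)
    linarith
  have hd2 : ‖p + q‖ ≤ 4 * b (f z) + ‖f z - f w‖ := by
    have e2 : p + q = 2 * p - (p - q) := by ring
    rw [e2, ← epq]
    refine (norm_sub_le _ _).trans ?_
    rw [norm_mul]
    have : ‖(2 : ℂ)‖ = 2 := by norm_num
    rw [this]
    linarith
  have b0 : 0 ≤ b (f z) := by
    rw [a3]
    exact a1.trans (le_max_left _ _)
  constructor
  · calc ‖z - w‖ ≤ C * (‖f z - f w‖ * ‖p + q‖) := k1
      _ ≤ C * (‖f z - f w‖ * (8 * (b (f z) + ‖f z - f w‖))) := by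
          apply mul_le_mul_of_nonneg_left _ hC0.le
          apply mul_le_mul_of_nonneg_left _ n1
          linarith
      _ = _ := by ring
  · calc ‖f z - f w‖ * (b (f z) + ‖f z - f w‖) ≤ ‖f z - f w‖ * (3 * ‖p + q‖) := by
          apply mul_le_mul_of_nonneg_left _ n1
          linarith
      _ = 3 * (‖f z - f w‖ * ‖p + q‖) := by ring
      _ ≤ 3 * (C * ‖z - w‖) := by linarith
      _ ≤ _ := by nlinarith

end Pool.Agent.J6H18.RC
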