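import Pool.Agent.J6H18.RC.Rect
import Pool.Agent.J6H18.GD.Box
import Pool.Agent.J6H18.GD.SmK

/-!
Rectangles: distortion of the conformal map, lattice approximation, arm profile.
-/

set_option autoImplicit false

namespace Pool.Agent.J6H18.RC

open TH976 (Cmp E EH E_eq_EH E_pos EH_pos gH pull cayi UH Conf pull_conf kFun kFun_cov PD sd sd_pos
  eQ)
open Complex Set Metric Filter Topology H974 H973 H362P
open Pool.Agent.Y989.SD (disc mem_disc pos)
open Pool.Agent.H389R2.CD (ArS)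
open Pool.Agent.J6H18.GD

section corner
variable {x1 x2 y1 y2 : ℝ}

theorem cX (hx : x1 < x2) {a s : ℝ} (h : (a = x1 ∧ s = 1) ∨ (a = x2 ∧ s = -1)) {w : ℂ}
    (hw : x1 ≤ w.re ∧ w.re ≤ x2) (hn : |w.re - a| ≤ (x2 - x1) / 2) :
    dX x1 x2 w = s * (w.re - a) ∧ 0 ≤ s * (w.re - a) ∧ (x1 < w.re ∧ w.re < x2 → 0 < s * (w.re - a)) ∧
      (w.re ≠ a → x1 < w.re ∧ w.re < x2) := by
  have h1 := abs_le.mp hn
  unfold dX
  rcases h with ⟨rfl, rfl⟩ | ⟨rfl, rfl⟩
  · refine ⟨?_, by linarith, fun h => by linarith, fun h => ⟨?_, by linarith⟩⟩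
    · rw [min_eq_left (by linarith)]
      ring
    · exact lt_of_le_of_ne hw.1 (Ne.symm h)
  · refine ⟨?_, by linarith, fun h => by linarith, fun h => ⟨by linarith, ?_⟩⟩
    · rw [min_eq_right (by linarith)]
      ring
    · exact lt_of_le_of_ne hw.2 h

theorem cY (hy : y1 < y2) {a s : ℝ} (h : (a = y1 ∧ s = 1) ∨ (a = y2 ∧ s = -1)) {w : ℂ}
    (hw : y1 ≤ w.im ∧ w.im ≤ y2) (hn : |w.im - a| ≤ (y2 - y1) / 2) :
    dY y1 y2 w = s * (w.im - a) ∧ 0 ≤ s * (w.im - a) ∧ (y1 < w.im ∧ w.im < y2 → 0 < s * (w.im - a)) ∧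
      (w.im ≠ a → y1 < w.im ∧ w.im < y2) := by
  have h1 := abs_le.mp hn
  unfold dY
  rcases h with ⟨rfl, rfl⟩ | ⟨rfl, rfl⟩
  · refine ⟨?_, by linarith, fun h => by linarith, fun h => ⟨?_, by linarith⟩⟩
    · rw [min_eq_left (by linarith)]
      ring
    · exact lt_of_le_of_ne hw.1 (Ne.symm h)
  · refine ⟨?_, by linarith, fun h => by linarith, fun h => ⟨by linarith, ?_⟩⟩
    · rw [min_eq_right (by linarith)]
      ring
    · exact lt_of_le_of_ne hw.2 h

end corner

namespace RM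
variable {f : ℂ → ℂ} {x1 x2 y1 y2 : ℝ}

theorem close (h : RM f x1 x2 y1 y2) {ζ : ℂ} (hζ : ‖ζ‖ ≤ 1) {η : ℝ} (hη : 0 < η) :
    ∃ δ : ℝ, 0 < δ ∧ ∀ z ∈ ball ζ δ, ‖z‖ ≤ 1 → ‖f z - f ζ‖ < η := by
  have h1 := Metric.continuousWithinAt_iff.mp (h.cont ζ (by simpa using hζ)) η hη
  obtain ⟨δ, hδ, h2⟩ := h1
  refine ⟨δ, hδ, fun z hz hz1 => ?_⟩
  have := h2 (x := z) (by simpa using hz1) (by simpa using hz)
  rwa [dist_eq_norm] at this

theorem le_corner (h : RM f x1 x2 y1 y2) {ζ : ℂ} (hζ : ‖ζ‖ = 1) {a s b t : ℝ}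
    (ha : (a = x1 ∧ s = 1) ∨ (a = x2 ∧ s = -1)) (hb : (b = y1 ∧ t = 1) ∨ (b = y2 ∧ t = -1))
    (h1 : (f ζ).re = a) (h2 : (f ζ).im = b) : LE f (bR x1 x2 y1 y2) ζ := by
  have hx := h.hx
  have hy := h.hy
  obtain ⟨δ, hδ, hc⟩ := h.close hζ.le (η := min ((x2 - x1) / 2) ((y2 - y1) / 2))
    (lt_min (by linarith) (by linarith))
  have hs : s = 1 ∨ s = -1 := by rcases ha with h | h <;> simp [h.2]
  have ht : t = 1 ∨ t = -1 := by rcases hb with h | h <;> simp [h.2]
  have key : ∀ z ∈ ball ζ δ, ‖z‖ ≤ 1 → |(f z).re - a| ≤ (x2 - x1) / 2 ∧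
      |(f z).im - b| ≤ (y2 - y1) / 2 := by
    intro z hz hz1
    have h3 := hc z hz hz1
    have h4 := abs_re_sub_le (f z) (f ζ)
    have h5 := abs_im_sub_le (f z) (f ζ)
    rw [h1] at h4
    rw [h2] at h5
    have := min_le_left ((x2 - x1) / 2) ((y2 - y1) / 2)
    have := min_le_right ((x2 - x1) / 2) ((y2 - y1) / 2)
    constructor <;> linarith
  have hcr : ∀ z, (f z - (⟨a, b⟩ : ℂ)).re = (f z).re - a := fun z => by rw [sub_re]
  have hci : ∀ z, (f z - (⟨a, b⟩ : ℂ)).im = (f z).im - b := fun z => by rw [sub_im]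
  refine LE_corner (c := ⟨a, b⟩) (s := s) (t := t) hζ h.cont h.diff hs ht hδ ?_ ?_ ?_
  · intro z hz hz1
    obtain ⟨k1, k2⟩ := key z hz hz1
    obtain ⟨m1, m2⟩ := h.mem_Rc hz1
    obtain ⟨p1, p2, -, -⟩ := cX hx ha m1 k1
    obtain ⟨q1, q2, -, -⟩ := cY hy hb m2 k2
    rw [hcr, hci]
    exact ⟨p2, q2, by unfold bR; rw [p1, q1]⟩
  · intro z hz hz1
    obtain ⟨k1, k2⟩ := key z hz hz1.le
    obtain ⟨m1, m2⟩ := h.mem_Rc hz1.le
    obtain ⟨o1, o2⟩ := h.mem_Ro hz1
    obtain ⟨-, -, p3, -⟩ := cX hx ha m1 k1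
    obtain ⟨-, -, q3, -⟩ := cY hy hb m2 k2
    rw [hcr, hci]
    exact ⟨p3 o1, q3 o2⟩
  · intro z hz hz1
    obtain ⟨k1, k2⟩ := key z hz hz1.le
    obtain ⟨m1, m2⟩ := h.mem_Rc hz1.le
    obtain ⟨-, -, -, p4⟩ := cX hx ha m1 k1
    obtain ⟨-, -, -, q4⟩ := cY hy hb m2 k2
    rw [hcr, hci]
    by_contra hcon
    push Not at hcon
    exact h.not_Ro hz1 ⟨p4 (fun e => hcon.1 (by rw [e, sub_self])),
      q4 (fun e => hcon.2 (by rw [e, sub_self]))⟩

theorem b_pos_of (h : RM f x1 x2 y1 y2) {z : ℂ} (hz : z ∈ Rc x1 x2 y1 y2)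
    (h1 : (x1 < z.re ∧ z.re < x2) ∨ (y1 < z.im ∧ z.im < y2)) : 0 < bR x1 x2 y1 y2 z := by
  rcases h1 with h1 | h1
  · exact lt_of_lt_of_le (lt_min (by linarith) (by linarith)) (le_max_left _ _)
  · exact lt_of_lt_of_le (lt_min (by linarith) (by linarith)) (le_max_right _ _)

theorem le_all (h : RM f x1 x2 y1 y2) {ζ : ℂ} (hζ : ‖ζ‖ ≤ 1) : LE f (bR x1 x2 y1 y2) ζ := by
  rcases hζ.lt_or_eq with hlt | heq
  · have h1 := h.mem_Ro hlt
    exact LE_int hlt (bR_lip x1 x2 y1 y2) (h.b_pos_of (h.mem_Rc hζ) (Or.inl h1.1)) h.diff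
      (h.inj.mono ball_subset_closedBall)
  · obtain ⟨⟨a1, a2⟩, b1, b2⟩ := h.mem_Rc hζ
    have hRc := h.mem_Rc hζ
    by_cases hxm : x1 < (f ζ).re ∧ (f ζ).re < x2
    · -- horizontal side
      have hpos := h.b_pos_of hRc (Or.inl hxm)
      have hside : (f ζ).im = y1 ∨ (f ζ).im = y2 := by
        by_contra hcon
        push Not at hcon
        exact h.not_Ro heq ⟨hxm, lt_of_le_of_ne b1 (Ne.symm hcon.1), lt_of_le_of_ne b2 hcon.2⟩
      obtain ⟨δ, hδ, hc⟩ := h.close hζ (η := min (min ((f ζ).re - x1) (x2 - (f ζ).re)) (y2 - y1))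
        (lt_min (lt_min (by linarith) (by linarith)) (by linarith [h.hy]))
      have hn : ∀ z ∈ ball ζ δ, ‖z‖ ≤ 1 → (x1 < (f z).re ∧ (f z).re < x2) ∧
          |(f z).im - (f ζ).im| < y2 - y1 := by
        intro z hz hz1
        have h3 := hc z hz hz1
        have h4 := abs_le.mp (abs_re_sub_le (f z) (f ζ))
        have h5 := abs_im_sub_le (f z) (f ζ)
        have m1 := min_le_left (min ((f ζ).re - x1) (x2 - (f ζ).re)) (y2 - y1)
        have m2 := min_le_right (min ((f ζ).re - x1) (x2 - (f ζ).re)) (y2 - y1)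
        have m3 := min_le_left ((f ζ).re - x1) (x2 - (f ζ).re)
        have m4 := min_le_right ((f ζ).re - x1) (x2 - (f ζ).re)
        refine ⟨⟨by linarith [h4.1], by linarith [h4.2]⟩, by linarith⟩
      rcases hside with hs | hs
      · refine LE_side (α := 1) (β := -((y1 : ℂ) * I)) heq (bR_lip x1 x2 y1 y2) hpos h.cont h.diff
          (by simp) hδ ?_ ?_
        · intro z _ hz1
          have h6 := (h.mem_Ro hz1).2.1
          simp
          linarith
        · intro z hz hz1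
          obtain ⟨g1, g2⟩ := hn z hz hz1.le
          have g3 := (h.mem_Rc hz1.le).2
          rw [hs] at g2
          have g4 := (abs_lt.mp g2).2
          have g5 : (f z).im = y1 := by
            by_contra hcon
            exact h.not_Ro hz1 ⟨g1, lt_of_le_of_ne g3.1 (Ne.symm hcon), by linarith⟩
          simp [g5]
      · refine LE_side (α := -1) (β := (y2 : ℂ) * I) heq (bR_lip x1 x2 y1 y2) hpos h.cont h.diff
          (by simp) hδ ?_ ?_
        · intro z _ hz1
          have h6 := (h.mem_Ro hz1).2.2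
          simp
          linarith
        · intro z hz hz1
          obtain ⟨g1, g2⟩ := hn z hz hz1.le
          have g3 := (h.mem_Rc hz1.le).2
          rw [hs] at g2
          have g4 := (abs_lt.mp g2).1
          have g5 : (f z).im = y2 := by
            by_contra hcon
            exact h.not_Ro hz1 ⟨g1, by linarith, lt_of_le_of_ne g3.2 hcon⟩
          simp [g5]
    · have hxs : (f ζ).re = x1 ∨ (f ζ).re = x2 := by
        by_contra hcon
        push Not at hcon
        exact hxm ⟨lt_of_le_of_ne a1 (Ne.symm hcon.1), lt_of_le_of_ne a2 hcon.2⟩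
      by_cases hym : y1 < (f ζ).im ∧ (f ζ).im < y2
      · -- vertical side
        have hpos := h.b_pos_of hRc (Or.inr hym)
        obtain ⟨δ, hδ, hc⟩ := h.close hζ (η := min (min ((f ζ).im - y1) (y2 - (f ζ).im)) (x2 - x1))
          (lt_min (lt_min (by linarith) (by linarith)) (by linarith [h.hx]))
        have hn : ∀ z ∈ ball ζ δ, ‖z‖ ≤ 1 → (y1 < (f z).im ∧ (f z).im < y2) ∧
            |(f z).re - (f ζ).re| < x2 - x1 := by
          intro z hz hz1
          have h3 := hc z hz hz1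
          have h4 := abs_le.mp (abs_im_sub_le (f z) (f ζ))
          have h5 := abs_re_sub_le (f z) (f ζ)
          have m1 := min_le_left (min ((f ζ).im - y1) (y2 - (f ζ).im)) (x2 - x1)
          have m2 := min_le_right (min ((f ζ).im - y1) (y2 - (f ζ).im)) (x2 - x1)
          have m3 := min_le_left ((f ζ).im - y1) (y2 - (f ζ).im)
          have m4 := min_le_right ((f ζ).im - y1) (y2 - (f ζ).im)
          refine ⟨⟨by linarith [h4.1], by linarith [h4.2]⟩, by linarith⟩
        rcases hxs with hs | hs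
        · refine LE_side (α := I) (β := -((x1 : ℂ) * I)) heq (bR_lip x1 x2 y1 y2) hpos h.cont h.diff
            (by simp) hδ ?_ ?_
          · intro z _ hz1
            have h6 := (h.mem_Ro hz1).1.1
            simp
            linarith
          · intro z hz hz1
            obtain ⟨g1, g2⟩ := hn z hz hz1.le
            have g3 := (h.mem_Rc hz1.le).1
            rw [hs] at g2
            have g4 := (abs_lt.mp g2).2
            have g5 : (f z).re = x1 := by
              by_contra hcon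
              exact h.not_Ro hz1 ⟨⟨lt_of_le_of_ne g3.1 (Ne.symm hcon), by linarith⟩, g1⟩
            simp [g5]
        · refine LE_side (α := -I) (β := (x2 : ℂ) * I) heq (bR_lip x1 x2 y1 y2) hpos h.cont h.diff
            (by simp) hδ ?_ ?_
          · intro z _ hz1
            have h6 := (h.mem_Ro hz1).1.2
            simp
            linarith
          · intro z hz hz1
            obtain ⟨g1, g2⟩ := hn z hz hz1.le
            have g3 := (h.mem_Rc hz1.le).1
            rw [hs] at g2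
            have g4 := (abs_lt.mp g2).1
            have g5 : (f z).re = x2 := by
              by_contra hcon
              exact h.not_Ro hz1 ⟨⟨by linarith, lt_of_le_of_ne g3.2 hcon⟩, g1⟩
            simp [g5]
      · have hys : (f ζ).im = y1 ∨ (f ζ).im = y2 := by
          by_contra hcon
          push Not at hcon
          exact hym ⟨lt_of_le_of_ne b1 (Ne.symm hcon.1), lt_of_le_of_ne b2 hcon.2⟩
        rcases hxs with hs | hs <;> rcases hys with ht | ht
        · exact h.le_corner heq (s := 1) (t := 1) (Or.inl ⟨rfl, rfl⟩) (Or.inl ⟨rfl, rfl⟩) hs ht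
        · exact h.le_corner heq (s := 1) (t := -1) (Or.inl ⟨rfl, rfl⟩) (Or.inr ⟨rfl, rfl⟩) hs ht
        · exact h.le_corner heq (s := -1) (t := 1) (Or.inr ⟨rfl, rfl⟩) (Or.inl ⟨rfl, rfl⟩) hs ht
        · exact h.le_corner heq (s := -1) (t := -1) (Or.inr ⟨rfl, rfl⟩) (Or.inr ⟨rfl, rfl⟩) hs ht

/-- the distance to the boundary curve -/
theorem bd_eq (h : RM f x1 x2 y1 y2) {z : ℂ} (hz : z ∈ Rc x1 x2 y1 y2) :
    bd f z = min (dX x1 x2 z) (dY y1 y2 z) := by
  have hne : (f '' sphere (0 : ℂ) 1).Nonempty := ⟨f 1, mem_image_of_mem f (by simp)⟩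
  obtain ⟨⟨a1, a2⟩, b1, b2⟩ := hz
  have hx := h.hx
  have hy := h.hy
  -- points of the boundary
  have pt : ∀ w : ℂ, w ∈ Rc x1 x2 y1 y2 → w ∉ Ro x1 x2 y1 y2 → bd f z ≤ ‖z - w‖ := by
    intro w hw hw'
    obtain ⟨ω, hω, rfl⟩ := h.on_sphere hw hw'
    exact bd_le hω z
  apply le_antisymm
  · apply le_min
    · apply le_min
      · refine (pt ⟨x1, z.im⟩ ⟨⟨le_rfl, hx.le⟩, b1, b2⟩ (fun hc => lt_irrefl _ hc.1.1)).trans ?_
        have e : z - (⟨x1, z.im⟩ : ℂ) = ((z.re - x1 : ℝ) : ℂ) := by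
          apply Complex.ext <;> simp
        rw [e, Complex.norm_real, Real.norm_eq_abs, abs_of_nonneg (by linarith)]
      · refine (pt ⟨x2, z.im⟩ ⟨⟨hx.le, le_rfl⟩, b1, b2⟩ (fun hc => lt_irrefl _ hc.1.2)).trans ?_
        have e : z - (⟨x2, z.im⟩ : ℂ) = ((z.re - x2 : ℝ) : ℂ) := by
          apply Complex.ext <;> simp
        rw [e, Complex.norm_real, Real.norm_eq_abs, abs_of_nonpos (by linarith)]
        linarith
    · apply le_min
      · refine (pt ⟨z.re, y1⟩ ⟨⟨a1, a2⟩, le_rfl, hy.le⟩ (fun hc => lt_irrefl _ hc.2.1)).trans ?_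
        have e : z - (⟨z.re, y1⟩ : ℂ) = ((z.im - y1 : ℝ) : ℂ) * I := by
          apply Complex.ext <;> simp
        rw [e, norm_mul, Complex.norm_I, mul_one, Complex.norm_real, Real.norm_eq_abs,
          abs_of_nonneg (by linarith)]
      · refine (pt ⟨z.re, y2⟩ ⟨⟨a1, a2⟩, hy.le, le_rfl⟩ (fun hc => lt_irrefl _ hc.2.2)).trans ?_
        have e : z - (⟨z.re, y2⟩ : ℂ) = ((z.im - y2 : ℝ) : ℂ) * I := by
          apply Complex.ext <;> simp
        rw [e, norm_mul, Complex.norm_I, mul_one, Complex.norm_real, Real.norm_eq_abs,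
          abs_of_nonpos (by linarith)]
        linarith
  · unfold GD.bd
    rw [le_infDist hne]
    rintro w ⟨ω, hω, rfl⟩
    have hω' : ‖ω‖ = 1 := by simpa using hω
    obtain ⟨⟨c1, c2⟩, d1, d2⟩ := h.mem_Rc hω'.le
    have hno := h.not_Ro hω'
    rw [dist_eq_norm]
    have l1 := dX_lip x1 x2 z (f ω)
    have l2 := dY_lip y1 y2 z (f ω)
    by_cases h3 : x1 < (f ω).re ∧ (f ω).re < x2
    · have h4 : (f ω).im = y1 ∨ (f ω).im = y2 := by
        by_contra hcon
        push Not at hcon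
        exact hno ⟨h3, lt_of_le_of_ne d1 (Ne.symm hcon.1), lt_of_le_of_ne d2 hcon.2⟩
      have h5 : dY y1 y2 (f ω) ≤ 0 := by
        unfold dY
        rcases h4 with h4 | h4
        · exact (min_le_left _ _).trans (by linarith)
        · exact (min_le_right _ _).trans (by linarith)
      exact (min_le_right _ _).trans (by linarith)
    · have h4 : (f ω).re = x1 ∨ (f ω).re = x2 := by
        by_contra hcon
        push Not at hcon
        exact h3 ⟨lt_of_le_of_ne c1 (Ne.symm hcon.1), lt_of_le_of_ne c2 hcon.2⟩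
      have h5 : dX x1 x2 (f ω) ≤ 0 := by
        unfold dX
        rcases h4 with h4 | h4
        · exact (min_le_left _ _).trans (by linarith)
        · exact (min_le_right _ _).trans (by linarith)
      exact (min_le_left _ _).trans (by linarith)

/-- **Distortion of the conformal map onto a rectangle.** -/
theorem dm (h : RM f x1 x2 y1 y2) : ∃ C : ℝ, DM f (bR x1 x2 y1 y2) C := by
  obtain ⟨C, hC, hg⟩ := glob h.cont h.inj (bR_lip x1 x2 y1 y2)
    (fun ζ hζ => h.b_nonneg (by simpa using hζ)) (fun ζ hζ => h.le_all (by simpa using hζ))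
  refine ⟨C, hC, h.cont, h.diff, fun ζ hζ ω hω => (hg ζ hζ ω hω).1,
    fun ζ hζ ω hω => (hg ζ hζ ω hω).2, fun ζ _ ω _ => bR_lip x1 x2 y1 y2 _ _, ?_⟩
  intro ζ hζ
  rw [h.bd_eq (h.mem_Rc (mem_disc.mp hζ))]
  exact min_le_max

end RM

end Pool.Agent.J6H18.RC
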