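import Pool.Agent.J6H18.RC.RectDM

/-!
Rectangles: lattice approximation, arm profile, `k`-point functions.
-/

set_option autoImplicit false

namespace Pool.Agent.J6H18.RC

open TH976 (Cmp E EH E_eq_EH E_pos EH_pos gH pull cayi UH Conf pull_conf kFun kFun_cov PD sd sd_pos
  eQ DQ)
open Complex Set Metric Filter Topology H974 H973 H362P
open Pool.Agent.Y989.SD (disc mem_disc pos)
open Pool.Agent.H389R2.CD (ArS)
open Pool.Agent.J6H18.GD

/-- the vertices in the rectangle -/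
noncomputable def TR (x1 x2 y1 y2 ε : ℝ) : Finset Vtx := Bx ⌈x1 / ε⌉ ⌊x2 / ε⌋ ⌈y1 / ε⌉ ⌊y2 / ε⌋

theorem mem_TR {x1 x2 y1 y2 ε : ℝ} (hε : 0 < ε) {v : Vtx} :
    v ∈ TR x1 x2 y1 y2 ε ↔ pos ε v ∈ Rc x1 x2 y1 y2 := by
  unfold TR
  rw [mem_Bx, Int.ceil_le, Int.le_floor, Int.ceil_le, Int.le_floor, div_le_iff₀ hε, le_div_iff₀ hε,
    div_le_iff₀ hε, le_div_iff₀ hε, mul_comm (v.1 : ℝ), mul_comm (v.2 : ℝ)]
  rfl

/-- one coordinate of the folding map -/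
theorem fold_near {a b ε t τ d : ℝ} (hε : 0 < ε) (k : ℤ) (ht : t = ε * k) (hd : |τ - t| ≤ d) :
    |ε * ((min (k - ⌈a / ε⌉) (⌊b / ε⌋ - k) + 1 : ℤ) : ℝ) - min (τ - a) (b - τ)| ≤ d + ε := by
  have h1 := Int.le_ceil (a / ε)
  have h2 := Int.ceil_lt_add_one (a / ε)
  have h3 := Int.floor_le (b / ε)
  have h4 := Int.lt_floor_add_one (b / ε)
  rw [div_le_iff₀ hε] at h1
  have h2' : ((⌈a / ε⌉ : ℤ) : ℝ) * ε < a + ε := by
    have := mul_lt_mul_of_pos_right h2 hε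
    rw [add_mul, div_mul_cancel₀ _ hε.ne', one_mul] at this
    exact this
  rw [le_div_iff₀ hε] at h3
  have h4' : b < ((⌊b / ε⌋ : ℤ) : ℝ) * ε + ε := by
    have := mul_lt_mul_of_pos_right h4 hε
    rw [add_mul, div_mul_cancel₀ _ hε.ne', one_mul] at this
    exact this
  have hd' := abs_le.mp hd
  push_cast
  set p : ℝ := ((⌈a / ε⌉ : ℤ) : ℝ)
  set q : ℝ := ((⌊b / ε⌋ : ℤ) : ℝ)
  rw [abs_le]
  constructor
  · rcases min_choice ((k : ℝ) - p) (q - k) with h | h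
    · rw [h]
      have := min_le_left (τ - a) (b - τ)
      nlinarith
    · rw [h]
      have := min_le_right (τ - a) (b - τ)
      nlinarith
  · rcases min_choice (τ - a) (b - τ) with h | h
    · rw [h]
      have := min_le_left ((k : ℝ) - p) (q - k)
      have := mul_le_mul_of_nonneg_left this hε.le
      nlinarith
    · rw [h]
      have := min_le_right ((k : ℝ) - p) (q - k)
      have := mul_le_mul_of_nonneg_left this hε.le
      nlinarith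

theorem min_near {a b c d δ : ℝ} (h1 : |a - b| ≤ δ) (h2 : |c - d| ≤ δ) :
    |min a c - min b d| ≤ δ := by
  have h1' := abs_le.mp h1
  have h2' := abs_le.mp h2
  rw [abs_le]
  constructor
  · rcases min_choice a c with h | h
    · rw [h]; have := min_le_left b d; linarith
    · rw [h]; have := min_le_right b d; linarith
  · rcases min_choice b d with h | h
    · rw [h]; have := min_le_left a c; linarith
    · rw [h]; have := min_le_right a c; linarith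

theorem max_near {a b c d δ : ℝ} (h1 : |a - b| ≤ δ) (h2 : |c - d| ≤ δ) :
    |max a c - max b d| ≤ δ := by
  have h1' := abs_le.mp h1
  have h2' := abs_le.mp h2
  rw [abs_le]
  constructor
  · rcases max_choice b d with h | h
    · rw [h]; have := le_max_left a c; linarith
    · rw [h]; have := le_max_right a c; linarith
  · rcases max_choice a c with h | h
    · rw [h]; have := le_max_left b d; linarith
    · rw [h]; have := le_max_right b d; linarith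

/-- comparison of a lattice distance with a distance -/
theorem cmp_near {ε A s τ : ℝ} (hε : 0 < ε) (hA : 1 ≤ A) (hs : 1 ≤ s) (hτ : ε ≤ A * τ)
    (h : |ε * s - τ| ≤ A * ε + ε) : Cmp (5 * A ^ 2) s (τ / ε) := by
  have h' := abs_le.mp h
  have hAA : 1 ≤ A ^ 2 := one_le_pow₀ hA
  have hAA' : A ≤ A ^ 2 := by nlinarith
  have hτ0 : 0 < τ := by
    by_contra hneg
    push Not at hneg
    have : A * τ ≤ 0 := mul_nonpos_of_nonneg_of_nonpos (by linarith) hneg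
    linarith
  refine ⟨by nlinarith, by linarith, by positivity, ?_, ?_⟩
  · rw [← mul_div_assoc, le_div_iff₀ hε]
    have q1 : (A + 1) * ε ≤ (A + 1) * (A * τ) := mul_le_mul_of_nonneg_left hτ (by linarith)
    have q2 : (A + 1) * (A * τ) + τ ≤ 5 * A ^ 2 * τ := by
      have : (A + 1) * A + 1 ≤ 5 * A ^ 2 := by nlinarith
      calc (A + 1) * (A * τ) + τ = ((A + 1) * A + 1) * τ := by ring
        _ ≤ _ := mul_le_mul_of_nonneg_right this hτ0.le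
    nlinarith
  · rw [div_le_iff₀ hε]
    have q1 : ε ≤ ε * s := by nlinarith
    have q2 : A * ε ≤ A ^ 2 * (ε * s) := mul_le_mul hAA' q1 hε.le (by linarith)
    have q3 : ε * s ≤ A ^ 2 * (ε * s) := by
      have : 0 ≤ ε * s := by positivity
      nlinarith
    nlinarith

/-- **Rectangles.** -/
theorem lp_R (hA : ArS) {f : ℂ → ℂ} {x1 x2 y1 y2 : ℝ} (h : RM f x1 x2 y1 y2) {A : ℝ}
    (hA1 : 1 ≤ A) : ∃ C N K ε0 κ k : ℝ, 0 < ε0 ∧ DM f (bR x1 x2 y1 y2) C ∧ 1 ≤ K ∧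
      ∀ ε : ℝ, 0 < ε → ε ≤ ε0 → ∃ L : ℕ,
        GD (TR x1 x2 y1 y2 ε) (eB ⌈x1 / ε⌉ ⌊x2 / ε⌋ ⌈y1 / ε⌉ ⌊y2 / ε⌋ L) L 3 κ k ∧
        LP f (bR x1 x2 y1 y2) ε (TR x1 x2 y1 y2 ε)
          (eB ⌈x1 / ε⌉ ⌊x2 / ε⌋ ⌈y1 / ε⌉ ⌊y2 / ε⌋ L) A K N := by
  obtain ⟨C, hdm⟩ := h.dm
  have hx := h.hx
  have hy := h.hy
  set a : ℝ := x2 - x1 with ha
  set b : ℝ := y2 - y1 with hb
  have ha0 : 0 < a := by linarith
  have hb0 : 0 < b := by linarith
  set m : ℝ := min a b with hm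
  have hm0 : 0 < m := lt_min ha0 hb0
  have hma : m ≤ a := min_le_left _ _
  have hmb : m ≤ b := min_le_right _ _
  set N : ℝ := a + b with hN
  have hmN : m ≤ N := by linarith
  -- the scale `L` is about `m / (20 ε)`
  set Q : ℕ := ⌈40 * N / m⌉₊ with hQ
  have hQ' : 40 * N ≤ Q * m := by
    have := Nat.le_ceil (40 * N / m)
    rwa [div_le_iff₀ hm0] at this
  obtain ⟨κ, k, hgd⟩ := gd_B hA Q
  set K1 : ℝ := 5 * A ^ 2 + 40 * N / m with hK1
  have hAA : 1 ≤ A ^ 2 := one_le_pow₀ hA1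
  have hNm : 0 < 40 * N / m := by positivity
  have hK11 : 1 ≤ K1 := by linarith
  have hKK : 1 ≤ K1 * K1 := Cmp.one_le_mul' hK11 hK11
  refine ⟨C, N, K1 * (K1 * K1) * (K1 * K1), m / 400, κ, k, by positivity, hdm,
    Cmp.one_le_mul' (Cmp.one_le_mul' hK11 hKK) hKK, fun ε hε hε1 => ?_⟩
  -- the scale
  set L : ℕ := ⌊m / (20 * ε)⌋₊ with hL
  have hL1 : (L : ℝ) ≤ m / (20 * ε) := Nat.floor_le (by positivity)
  have hL2 : m / (20 * ε) < L + 1 := Nat.lt_floor_add_one _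
  rw [le_div_iff₀ (by positivity)] at hL1
  rw [div_lt_iff₀ (by positivity)] at hL2
  have hL16 : 16 ≤ L := by
    apply Nat.le_floor
    rw [le_div_iff₀ (by positivity)]
    push_cast
    linarith
  have hL16r : (16 : ℝ) ≤ L := by exact_mod_cast hL16
  have hLm : m ≤ 40 * ε * L := by nlinarith
  have len : ∀ p q : ℝ, p < q → m ≤ q - p → q - p ≤ N →
      16 * (L : ℤ) ≤ ⌊q / ε⌋ - ⌈p / ε⌉ ∧ ⌊q / ε⌋ - ⌈p / ε⌉ ≤ Q * L := by
    intro p q hpq h1 h2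
    have h3 := Int.ceil_lt_add_one (p / ε)
    have h4 := Int.lt_floor_add_one (q / ε)
    have h5 := Int.le_ceil (p / ε)
    have h6 := Int.floor_le (q / ε)
    have h7 : q / ε - p / ε = (q - p) / ε := by ring
    have h8 : (16 : ℝ) * L + 2 ≤ (q - p) / ε := by
      rw [le_div_iff₀ hε]
      nlinarith
    have h9 : (q - p) / ε ≤ Q * L := by
      rw [div_le_iff₀ hε]
      have : (Q : ℝ) * m ≤ Q * (40 * ε * L) := mul_le_mul_of_nonneg_left hLm (by positivity)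
      nlinarith
    constructor
    · have : ((16 * (L : ℤ) : ℤ) : ℝ) < ((⌊q / ε⌋ - ⌈p / ε⌉ + 1 : ℤ) : ℝ) := by
        push_cast
        linarith
      have := Int.cast_lt.mp this
      omega
    · have : ((⌊q / ε⌋ - ⌈p / ε⌉ : ℤ) : ℝ) ≤ ((Q * L : ℤ) : ℝ) := by
        push_cast
        linarith
      exact_mod_cast this
  obtain ⟨lx1, lx2⟩ := len x1 x2 hx hma (by linarith)
  obtain ⟨ly1, ly2⟩ := len y1 y2 hy hmb (by linarith)
  have hG := hgd ⌈x1 / ε⌉ ⌊x2 / ε⌋ ⌈y1 / ε⌉ ⌊y2 / ε⌋ L hL16 lx1 ly1 lx2 ly2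
  refine ⟨L, hG, hε, hA1, ?_, ?_, ?_⟩
  · intro v
    rw [mem_TR hε]
    show _ ↔ _ ∈ f '' closedBall 0 1
    rw [h.img_disc]
  · intro ζ hζ ω hω
    obtain ⟨⟨p1, p2⟩, p3, p4⟩ := h.mem_Rc (mem_disc.mp hζ)
    obtain ⟨⟨q1, q2⟩, q3, q4⟩ := h.mem_Rc (mem_disc.mp hω)
    refine (Complex.norm_le_abs_re_add_abs_im _).trans ?_
    rw [sub_re, sub_im]
    have r1 : |(f ζ).re - (f ω).re| ≤ a := by rw [abs_le]; constructor <;> linarith
    have r2 : |(f ζ).im - (f ω).im| ≤ b := by rw [abs_le]; constructor <;> linarith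
    linarith
  · intro v hv ζ hζ h1 h2 n hn hnN
    have hfv : fold ⌈x1 / ε⌉ ⌊x2 / ε⌋ ⌈y1 / ε⌉ ⌊y2 / ε⌋ v ∈ DQ := fold_mem hv
    obtain ⟨f1, f2⟩ := hfv
    have hz : f ζ ∈ Rc x1 x2 y1 y2 := h.mem_Rc hζ.le
    have hbd : GD.bd f (f ζ) = min (dX x1 x2 (f ζ)) (dY y1 y2 (f ζ)) := h.bd_eq hz
    have n1 : |ε * (((fold ⌈x1 / ε⌉ ⌊x2 / ε⌋ ⌈y1 / ε⌉ ⌊y2 / ε⌋ v).1 : ℤ) : ℝ) -
        dX x1 x2 (f ζ)| ≤ A * ε + ε := by
      refine fold_near hε v.1 (t := (pos ε v).re) rfl ?_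
      exact (abs_re_sub_le _ _).trans h1
    have n2 : |ε * (((fold ⌈x1 / ε⌉ ⌊x2 / ε⌋ ⌈y1 / ε⌉ ⌊y2 / ε⌋ v).2 : ℤ) : ℝ) -
        dY y1 y2 (f ζ)| ≤ A * ε + ε := by
      refine fold_near hε v.2 (t := (pos ε v).im) rfl ?_
      exact (abs_im_sub_le _ _).trans h1
    set p : ℝ := (((fold ⌈x1 / ε⌉ ⌊x2 / ε⌋ ⌈y1 / ε⌉ ⌊y2 / ε⌋ v).1 : ℤ) : ℝ) with hp
    set q : ℝ := (((fold ⌈x1 / ε⌉ ⌊x2 / ε⌋ ⌈y1 / ε⌉ ⌊y2 / ε⌋ v).2 : ℤ) : ℝ) with hq
    have p1 : 1 ≤ p := by rw [hp]; exact_mod_cast f1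
    have q1 : 1 ≤ q := by rw [hq]; exact_mod_cast f2
    have m1 : |ε * min p q - GD.bd f (f ζ)| ≤ A * ε + ε := by
      rw [hbd, mul_min_of_nonneg _ _ hε.le]
      exact min_near n1 n2
    have m2 : |ε * max p q - bR x1 x2 y1 y2 (f ζ)| ≤ A * ε + ε := by
      unfold bR
      rw [mul_max_of_nonneg _ _ hε.le]
      exact max_near n1 n2
    have hsb : GD.bd f (f ζ) ≤ bR x1 x2 y1 y2 (f ζ) := by
      rw [hbd]
      exact min_le_max
    have h2' : ε ≤ A * bR x1 x2 y1 y2 (f ζ) :=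
      h2.trans (mul_le_mul_of_nonneg_left hsb (by linarith))
    have c1 : Cmp K1 (min p q) (GD.bd f (f ζ) / ε) :=
      (cmp_near hε hA1 (le_min p1 q1) h2 m1).weaken (by linarith)
    have c2 : Cmp K1 (max p q) (bR x1 x2 y1 y2 (f ζ) / ε) :=
      (cmp_near hε hA1 (p1.trans (le_max_left _ _)) h2' m2).weaken (by linarith)
    have hnr : (1 : ℝ) ≤ n := by exact_mod_cast hn
    have c3 : Cmp K1 (((min n L : ℕ)) : ℝ) (n : ℝ) := by
      rcases le_total n L with h5 | h5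
      · rw [min_eq_left h5]
        exact (Cmp.refl (by linarith)).weaken hK11
      · rw [min_eq_right h5]
        have hr : (L : ℝ) ≤ n := by exact_mod_cast h5
        refine ⟨hK11, by linarith, by linarith, ?_, ?_⟩
        · nlinarith
        · have h6 : (n : ℝ) * m ≤ 40 * N * L := by
            have h7 : (n : ℝ) * m ≤ (n : ℝ) * (40 * ε * L) :=
              mul_le_mul_of_nonneg_left hLm (by linarith)
            have h8 : (ε * n) * (40 * L) ≤ N * (40 * L) :=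
              mul_le_mul_of_nonneg_right hnN (by positivity)
            nlinarith
          have h9 : (n : ℝ) ≤ 40 * N / m * L := by
            rw [div_mul_eq_mul_div, le_div_iff₀ hm0]
            exact h6
          have h10 : 0 ≤ 5 * A ^ 2 * (L : ℝ) := by positivity
          rw [hK1]
          linarith
    exact E_cmp c1 c2 c3

/-- **The `k`-point functions in a rectangle.** -/
theorem kpt_R (hA : ArS) {f : ℂ → ℂ} {x1 x2 y1 y2 : ℝ} (h : RM f x1 x2 y1 y2) {A : ℝ}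
    (hA1 : 1 ≤ A) : ∃ C ε0 : ℝ, 1 ≤ C ∧ 0 < ε0 ∧ ∀ ε : ℝ, 0 < ε → ε ≤ ε0 →
      ∀ u, Conf (f '' ball (0 : ℂ) 1) UH u → ∀ (n : ℕ) (x : ℕ → Vtx) (z : ℕ → ℂ), 2 ≤ n →
      (∀ i < n, pos ε (x i) ∈ f '' disc) → (∀ i < n, ∀ j < n, i ≠ j → x i ≠ x j) →
      (∀ i < n, z i ∈ f '' ball (0 : ℂ) 1) → (∀ i < n, ‖z i - pos ε (x i)‖ ≤ A * ε) →
      (∀ i < n, ∀ w : ℂ, ‖w‖ = 1 → ε ≤ A * ‖z i - f w‖) →
      (∀ i < n, ∀ j < n, i ≠ j → ε ≤ A * ‖z i - z j‖) →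
      Cmp (C ^ n) (PD (↑(TR x1 x2 y1 y2 ε) : Set Vtx) (Cn ((Finset.range n).image x)))
        ((ε ^ (5 / 48 : ℝ)) ^ n * kFun (pull u) z n) := by
  obtain ⟨C, N, K, ε0, κ, k, hε0, hdm, hK, hall⟩ := lp_R hA h hA1
  obtain ⟨L0, g0, lp0⟩ := hall ε0 hε0 le_rfl
  refine ⟨max 1 (k ^ 12 * (1 + (κ ^ 2 * (UK 3 k ^ 7)⁻¹)⁻¹) *
    (K2 A C K * K2 A C K * K2 A C K)), ε0, le_max_left _ _, hε0, fun ε hε hε1 => ?_⟩
  obtain ⟨L, g, lp⟩ := hall ε hε hε1
  intro u hu n x z hn hx hd' hz h1 h3 h5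
  refine (kpt_z hdm g hK lp hu hn x z hx hd' hz h1 h3 h5).weaken ?_
  apply pow_le_pow_left₀ _ (le_max_right _ _)
  have k1 := g0.k1
  have κ0 := g0.κ0
  have hK2 := K2_one hA1 hdm.C1 hK
  have hU : 0 < UK 3 k := lt_of_lt_of_le one_pos g0.U1
  positivity

end Pool.Agent.J6H18.RC
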