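import Pool.Agent.J6H18.RC.RectLP

/-!
Rectangles: points inside the domain close to the vertices.
-/

set_option autoImplicit false

namespace Pool.Agent.J6H18.RC

open Complex Set Metric Filter Topology H974 H973 H362P
open TH976 (sd sd_pos)
open Pool.Agent.Y989.SD (disc mem_disc pos)
open Pool.Agent.J6H18.GD

theorem retr_R {f : ℂ → ℂ} {x1 x2 y1 y2 : ℝ} (h : RM f x1 x2 y1 y2) : ∃ A ε0 : ℝ, 1 ≤ A ∧
    0 < ε0 ∧ ∀ ε : ℝ, 0 < ε → ε ≤ ε0 → ∃ r : Vtx → ℂ, ∀ v, pos ε v ∈ f '' disc →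
      (r v ∈ f '' ball (0 : ℂ) 1 ∧ ‖r v - pos ε v‖ ≤ A * ε ∧
        ∀ w : ℂ, ‖w‖ = 1 → ε ≤ A * ‖r v - f w‖) ∧
      ∀ w, pos ε w ∈ f '' disc → v ≠ w → ε ≤ A * ‖r v - r w‖ := by
  have hx := h.hx
  have hy := h.hy
  set m : ℝ := min (x2 - x1) (y2 - y1) with hm
  have hm0 : 0 < m := lt_min (by linarith) (by linarith)
  have hma : m ≤ x2 - x1 := min_le_left _ _
  have hmb : m ≤ y2 - y1 := min_le_right _ _
  set N : ℝ := (x2 - x1) + (y2 - y1) with hN
  have hN0 : 0 < N := by linarith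
  set c : ℂ := ⟨(x1 + x2) / 2, (y1 + y2) / 2⟩ with hc
  refine ⟨2 + 4 / m * N, m / 8, by
    have : 0 < 4 / m * N := by positivity
    linarith, by positivity, fun ε hε hε1 => ?_⟩
  have hA0 : 0 < 4 / m * N := by positivity
  set t : ℝ := 4 / m * ε with ht
  have ht0 : 0 < t := by positivity
  have ht1 : t ≤ 1 / 2 := by
    calc t ≤ 4 / m * (m / 8) := mul_le_mul_of_nonneg_left hε1 (by positivity)
      _ = 1 / 2 := by field_simp; norm_num
  have htm : t * m = 4 * ε := by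
    rw [ht]
    field_simp
  have img : f '' disc = Rc x1 x2 y1 y2 := h.img_disc
  refine ⟨fun v => c + ((1 - t : ℝ) : ℂ) * (pos ε v - c), ?_⟩
  intro v hv
  rw [img] at hv
  obtain ⟨⟨a1, a2⟩, b1, b2⟩ := hv
  have hre : (c + ((1 - t : ℝ) : ℂ) * (pos ε v - c)).re =
      (1 - t) * (pos ε v).re + t * ((x1 + x2) / 2) := by
    rw [add_re, re_ofReal_mul, sub_re, hc]
    ring
  have him : (c + ((1 - t : ℝ) : ℂ) * (pos ε v - c)).im =
      (1 - t) * (pos ε v).im + t * ((y1 + y2) / 2) := by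
    rw [add_im, im_ofReal_mul, sub_im, hc]
    ring
  set z : ℂ := c + ((1 - t : ℝ) : ℂ) * (pos ε v - c) with hz
  have g1 : x1 + 2 * ε ≤ z.re := by rw [hre]; nlinarith
  have g2 : z.re ≤ x2 - 2 * ε := by rw [hre]; nlinarith
  have g3 : y1 + 2 * ε ≤ z.im := by rw [him]; nlinarith
  have g4 : z.im ≤ y2 - 2 * ε := by rw [him]; nlinarith
  have hRc : z ∈ Rc x1 x2 y1 y2 := ⟨⟨by linarith, by linarith⟩, by linarith, by linarith⟩
  refine ⟨⟨?_, ?_, ?_⟩, ?_⟩
  · rw [h.img]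
    exact ⟨⟨by linarith, by linarith⟩, by linarith, by linarith⟩
  · have e : z - pos ε v = ((t : ℝ) : ℂ) * (c - pos ε v) := by
      rw [hz]
      push_cast
      ring
    show ‖z - pos ε v‖ ≤ _
    rw [e, norm_mul, Complex.norm_real, Real.norm_eq_abs, abs_of_pos ht0]
    have h1 : ‖c - pos ε v‖ ≤ N := by
      refine (Complex.norm_le_abs_re_add_abs_im _).trans ?_
      rw [sub_re, sub_im]
      have r1 : |c.re - (pos ε v).re| ≤ x2 - x1 := by
        rw [hc, abs_le]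
        simp only
        constructor <;> linarith
      have r2 : |c.im - (pos ε v).im| ≤ y2 - y1 := by
        rw [hc, abs_le]
        simp only
        constructor <;> linarith
      linarith
    calc t * ‖c - pos ε v‖ ≤ t * N := mul_le_mul_of_nonneg_left h1 ht0.le
      _ = 4 / m * N * ε := by rw [ht]; ring
      _ ≤ _ := mul_le_mul_of_nonneg_right (by linarith) hε.le
  · intro w hw
    have h1 := bd_le (f := f) hw z
    rw [h.bd_eq hRc] at h1
    have h2 : 2 * ε ≤ min (dX x1 x2 z) (dY y1 y2 z) := by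
      unfold dX dY
      refine le_min (le_min ?_ ?_) (le_min ?_ ?_) <;> linarith
    have h3 := norm_nonneg (z - f w)
    show ε ≤ _ * ‖z - f w‖
    nlinarith
  · intro w hw hvw
    have e : z - (c + ((1 - t : ℝ) : ℂ) * (pos ε w - c)) =
        ((1 - t : ℝ) : ℂ) * (pos ε v - pos ε w) := by
      rw [hz]
      ring
    show ε ≤ _ * ‖z - (c + ((1 - t : ℝ) : ℂ) * (pos ε w - c))‖
    rw [e, norm_mul, Complex.norm_real, Real.norm_eq_abs, abs_of_pos (by linarith)]
    have h4 : ε ≤ ‖pos ε v - pos ε w‖ := by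
      have g1 := pos_le_sd hε v w
      have g2 := sd_pos hvw
      have g3 := sd_pos_le hε v w
      have g4 : (1 : ℝ) ≤ (sd v w : ℝ) := by exact_mod_cast g2
      nlinarith
    have h5 : (1 / 2) * ε ≤ (1 - t) * ‖pos ε v - pos ε w‖ := by nlinarith
    have h6 : 0 ≤ 4 / m * N * ((1 - t) * ‖pos ε v - pos ε w‖) :=
      mul_nonneg hA0.le (mul_nonneg (by linarith) (norm_nonneg _))
    nlinarith

end Pool.Agent.J6H18.RC
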