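import Mathlib
import Pool.Agent.J6H18.RC.Arc
import Pool.Agent.Y989.SD.Fin
import Pool.Agent.Y989.SD.Main
import Pool.Agent.H160R2.SA.Arm

/-!
Critical bond percolation on `ε ℤ²` (`p = 1/2`) in a rectangle with sides parallel to the axes: the
probability that two disjoint boundary arcs are joined by an open path inside the rectangle is given
by Cardy's formula, up to multiplicative constants which depend only on the rectangle: they do not
depend on the arcs (which may lie on any sides, contain corners, be as small as the mesh and as close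
to each other or to the corners as one likes) nor on the mesh.
-/

set_option autoImplicit false

namespace Pool.Agent.J6H18.RC.RectangleCardyOld

open MeasureTheory

/-- The square lattice: two points of `ℤ²` are adjacent when they differ by one in exactly one
coordinate. -/
def Z2 : SimpleGraph (ℤ × ℤ) where
  Adj u v := |u.1 - v.1| + |u.2 - v.2| = 1
  symm := ⟨fun u v h => by rw [abs_sub_comm v.1, abs_sub_comm v.2]; exact h⟩
  loopless := ⟨fun u h => by simp at h⟩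

/-- Critical bond percolation: every edge of the square lattice is open (`true`) with
probability `1/2`, independently of the other edges. -/
noncomputable def crit : Measure (Z2.edgeSet → Bool) :=
  Measure.infinitePi (fun _ => ProbabilityTheory.bernoulliMeasure true false
    ⟨1/2, by norm_num, by norm_num⟩)

/-- The position of the vertex `v` of the lattice `ε ℤ²` in the plane. -/
noncomputable def pos (ε : ℝ) (v : ℤ × ℤ) : ℂ := ⟨ε * v.1, ε * v.2⟩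

/-- The graph of the open edges of `ε ℤ²` with both endpoints in `D`. -/
def openGraph (ε : ℝ) (D : Set ℂ) (ω : Z2.edgeSet → Bool) : SimpleGraph (ℤ × ℤ) :=
  SimpleGraph.fromEdgeSet {e | (∃ h : e ∈ Z2.edgeSet, ω ⟨e, h⟩ = true) ∧ ∀ v ∈ e, pos ε v ∈ D}

/-- The lattice approximation of the boundary arc `A` of `D`: the vertices of `ε ℤ²` in `D` at
distance at most `2 ε` from `A`. -/
def near (ε : ℝ) (D A : Set ℂ) : Set (ℤ × ℤ) :=
  {v | pos ε v ∈ D ∧ ∃ z ∈ A, dist (pos ε v) z ≤ 2 * ε}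

/-- The crossing probability: the probability that an open path of `ε ℤ²` in `D` joins `A` to
`B`. -/
noncomputable def cross (ε : ℝ) (D A B : Set ℂ) : ℝ :=
  crit.real {ω | ∃ u ∈ near ε D A, ∃ v ∈ near ε D B, (openGraph ε D ω).Reachable u v}

/-- The closed unit disc. -/
def disc : Set ℂ := Metric.closedBall 0 1

/-- The open unit disc. -/
def ball : Set ℂ := Metric.ball 0 1

/-- The open rectangle with corners `(x₁, y₁)` and `(x₂, y₂)`. -/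
def rect (x₁ x₂ y₁ y₂ : ℝ) : Set ℂ := {z | (x₁ < z.re ∧ z.re < x₂) ∧ (y₁ < z.im ∧ z.im < y₂)}

/-- `f` parametrizes a closed rectangle with sides parallel to the axes: it is injective and
continuous on the closed unit disc, and holomorphic on the open unit disc, which it maps onto an open
rectangle. (Such a map exists for every rectangle, by the theorems of Riemann and Carathéodory.) -/
def Rectangular (f : ℂ → ℂ) : Prop :=
  Set.InjOn f disc ∧ ContinuousOn f disc ∧ DifferentiableOn ℂ f ball ∧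
    ∃ x₁ x₂ y₁ y₂ : ℝ, x₁ < x₂ ∧ y₁ < y₂ ∧ f '' ball = rect x₁ x₂ y₁ y₂

/-- The point of the unit circle of argument `θ`. -/
noncomputable def cir (θ : ℝ) : ℂ := Complex.exp (θ * Complex.I)

/-- The boundary arc of the domain `f '' disc` from `f (cir a)` to `f (cir b)`. -/
def arc (f : ℂ → ℂ) (a b : ℝ) : Set ℂ := (fun θ => f (cir θ)) '' Set.Icc a b

/-- The cross-ratio of four points of the unit circle in cyclic order. -/
noncomputable def crossRatio (z₁ z₂ z₃ z₄ : ℂ) : ℝ :=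
  ‖z₂ - z₁‖ * ‖z₄ - z₃‖ / (‖z₃ - z₁‖ * ‖z₄ - z₂‖)

/-- Cardy's function: the predicted limit of the crossing probability, as a function of the
cross-ratio. -/
noncomputable def cardy (x : ℝ) : ℝ :=
  (∫ t in (0 : ℝ)..x, (t * (1 - t)) ^ (-(2 / 3 : ℝ))) /
    ∫ t in (0 : ℝ)..1, (t * (1 - t)) ^ (-(2 / 3 : ℝ))

theorem openGraph_adj {f : ℂ → ℂ} {ε : ℝ} {T : Finset (ℤ × ℤ)}
    (h : ∀ v, v ∈ T ↔ Y989.SD.pos ε v ∈ f '' Y989.SD.disc) (ω : Z2.edgeSet → Bool) (u v : ℤ × ℤ) :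
    (openGraph ε (f '' disc) ω).Adj u v ↔
      H974.Adj (H974.opn ω ∩ TH976.dE (↑T : Set (ℤ × ℤ))) u v := by
  have hs : ∀ w, pos ε w ∈ f '' disc ↔ w ∈ (↑T : Set (ℤ × ℤ)) := fun w => (h w).symm
  unfold openGraph
  rw [SimpleGraph.fromEdgeSet_adj]
  constructor
  · rintro ⟨⟨⟨h, hω⟩, hV⟩, hne⟩
    have hadj : (H974.openGraph ω).Adj u v := by
      unfold H974.openGraph
      rw [SimpleGraph.fromEdgeSet_adj]
      exact ⟨⟨h, hω⟩, hne⟩
    obtain ⟨e, he, hcase⟩ := (H974.openGraph_adj ω u v).mp hadj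
    have hu := (hs u).mp (hV u (Sym2.mem_mk_left u v))
    have hv := (hs v).mp (hV v (Sym2.mem_mk_right u v))
    refine ⟨e, ⟨he, ?_⟩, hcase⟩
    rcases hcase with ⟨h1, h2⟩ | ⟨h1, h2⟩
    · exact ⟨by rw [h1]; exact hu, by rw [h2]; exact hv⟩
    · exact ⟨by rw [h1]; exact hv, by rw [h2]; exact hu⟩
  · rintro ⟨e, ⟨he, hV⟩, hcase⟩
    have hadj : (H974.openGraph ω).Adj u v := (H974.openGraph_adj ω u v).mpr ⟨e, he, hcase⟩
    unfold H974.openGraph at hadj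
    rw [SimpleGraph.fromEdgeSet_adj] at hadj
    refine ⟨⟨hadj.1, ?_⟩, hadj.2⟩
    intro w hw
    rw [hs]
    rcases Sym2.mem_iff.mp hw with rfl | rfl
    · rcases hcase with ⟨h1, h2⟩ | ⟨h1, h2⟩
      · rw [← h1]; exact hV.1
      · rw [← h2]; exact hV.2
    · rcases hcase with ⟨h1, h2⟩ | ⟨h1, h2⟩
      · rw [← h2]; exact hV.2
      · rw [← h1]; exact hV.1

theorem FF_eq (T : Finset (ℤ × ℤ)) (ω : H974.sqLattice.edgeSet → Bool) :
    H974.opn ω ∩ TH976.dE (↑T : Set (ℤ × ℤ)) = (H974.FF (H973.ES T) ω : Set H974.Edg) := by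
  ext e
  rw [Finset.mem_coe, H974.mem_FF, H973.mem_ES]
  constructor
  · rintro ⟨h1, h2, h3⟩
    exact ⟨⟨h2, h3⟩, h1⟩
  · rintro ⟨⟨h2, h3⟩, h1⟩
    exact ⟨h1, h2, h3⟩

theorem cross_eq {f : ℂ → ℂ} {ε : ℝ} {T : Finset (ℤ × ℤ)}
    (h : ∀ v, v ∈ T ↔ Y989.SD.pos ε v ∈ f '' Y989.SD.disc) {X Y : Set ℂ} {A B : Finset (ℤ × ℤ)}
    (hA : ∀ v, v ∈ A ↔ v ∈ near ε (f '' disc) X) (hB : ∀ v, v ∈ B ↔ v ∈ near ε (f '' disc) Y) :
    cross ε (f '' disc) X Y = H974.Pr H160R2.CV.P (H973.ES T) (J6H18.GD.Jn A B) := by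
  have key : ∀ (ω : Z2.edgeSet → Bool) (u v : ℤ × ℤ), (openGraph ε (f '' disc) ω).Reachable u v ↔
      H974.Reach (H974.FF (H973.ES T) ω : Set H974.Edg) u v := by
    intro ω u v
    rw [SimpleGraph.reachable_iff_reflTransGen]
    have e1 : H974.opn ω ∩ TH976.dE (↑T : Set (ℤ × ℤ)) =
        (H974.FF (H973.ES T) ω : Set H974.Edg) := FF_eq T ω
    have e2 : (openGraph ε (f '' disc) ω).Adj =
        H974.Adj (H974.FF (H973.ES T) ω : Set H974.Edg) := by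
      funext u v
      rw [← e1]
      exact propext (openGraph_adj h ω u v)
    rw [e2]
    rfl
  have e2 : {ω : Z2.edgeSet → Bool | ∃ u ∈ near ε (f '' disc) X, ∃ v ∈ near ε (f '' disc) Y,
      (openGraph ε (f '' disc) ω).Reachable u v} =
      {ω | J6H18.GD.Jn A B (H974.FF (H973.ES T) ω)} := by
    ext ω
    constructor
    · rintro ⟨u, hu, v, hv, hr⟩
      exact ⟨u, (hA u).mpr hu, v, (hB v).mpr hv, (key ω u v).mp hr⟩
    · rintro ⟨u, hu, v, hv, hr⟩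
      exact ⟨u, (hA u).mp hu, v, (hB v).mp hv, (key ω u v).mpr hr⟩
  have h6 := H974.law_event H974.hlf (H973.ES T) (J6H18.GD.Jn A B)
  exact (congrArg (fun s => (H974.bondLaw H974.hlf).real s) e2).trans h6

theorem norm_cir_sub (a b : ℝ) : ‖cir a - cir b‖ = 2 * |Real.sin ((a - b) / 2)| := by
  have h1 : cir a - cir b =
      Complex.exp (b * Complex.I) * (Complex.exp (Complex.I * ((a - b : ℝ) : ℂ)) - 1) := by
    unfold cir
    rw [mul_sub, ← Complex.exp_add, mul_one]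
    congr 2
    push_cast
    ring
  rw [h1, norm_mul, Complex.norm_exp_ofReal_mul_I, one_mul,
    Complex.norm_exp_I_mul_ofReal_sub_one, norm_mul, Real.norm_eq_abs, Real.norm_eq_abs,
    abs_of_pos (by norm_num : (0 : ℝ) < 2)]

theorem crossRatio_eq {θ₁ θ₂ θ₃ θ₄ : ℝ} (h1 : θ₁ < θ₂) (h2 : θ₂ < θ₃) (h3 : θ₃ < θ₄)
    (h4 : θ₄ < θ₁ + 2 * Real.pi) :
    crossRatio (cir θ₁) (cir θ₂) (cir θ₃) (cir θ₄) = Y989.SD.xr θ₁ θ₂ θ₃ θ₄ := by
  have hp : ∀ a b : ℝ, a < b → b < a + 2 * Real.pi →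
      ‖cir b - cir a‖ = 2 * Real.sin ((b - a) / 2) := by
    intro a b hab hba
    rw [norm_cir_sub, abs_of_pos]
    apply Real.sin_pos_of_pos_of_lt_pi <;> linarith
  have s1 : 0 < Real.sin ((θ₃ - θ₁) / 2) := by
    apply Real.sin_pos_of_pos_of_lt_pi <;> linarith
  have s2 : 0 < Real.sin ((θ₄ - θ₂) / 2) := by
    apply Real.sin_pos_of_pos_of_lt_pi <;> linarith
  unfold crossRatio Y989.SD.xr
  rw [hp θ₁ θ₂ h1 (by linarith), hp θ₃ θ₄ h3 (by linarith), hp θ₁ θ₃ (by linarith) (by linarith),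
    hp θ₂ θ₄ (by linarith) (by linarith)]
  field_simp

theorem arc_eq (f : ℂ → ℂ) (a b : ℝ) : arc f a b = f '' J6H18.RC.CA a b := by
  unfold arc J6H18.RC.CA
  rw [Set.image_image]
  rfl

theorem main_of (hA : H389R2.CD.ArS) (h4 : Y989.SD.S_XR) (h5 : Y989.SD.S_CDY) (f : ℂ → ℂ)
    (hf : Rectangular f) : ∃ c C ε₀ : ℝ, 0 < c ∧ 0 < C ∧ 0 < ε₀ ∧
    ∀ ε θ₁ θ₂ θ₃ θ₄ : ℝ, 0 < ε → ε ≤ ε₀ → θ₁ < θ₂ → θ₂ < θ₃ → θ₃ < θ₄ → θ₄ < θ₁ + 2 * Real.pi →
      ε ≤ Metric.diam (arc f θ₁ θ₂) → ε ≤ Metric.diam (arc f θ₃ θ₄) →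
      c * cardy (crossRatio (cir θ₁) (cir θ₂) (cir θ₃) (cir θ₄)) ≤
        cross ε (f '' disc) (arc f θ₁ θ₂) (arc f θ₃ θ₄) ∧
      cross ε (f '' disc) (arc f θ₁ θ₂) (arc f θ₃ θ₄) ≤
        C * cardy (crossRatio (cir θ₁) (cir θ₂) (cir θ₃) (cir θ₄)) := by
  obtain ⟨g1, g2, g3, x₁, x₂, y₁, y₂, g4, g5, g6⟩ := hf
  have hR : J6H18.RC.RM f x₁ x₂ y₁ y₂ := ⟨g4, g5, g1, g2, g3, g6⟩
  obtain ⟨C1, ε0, hC1, hε0, hall⟩ := J6H18.RC.arcs_R hA hR
  obtain ⟨c2, C2, hc2, hC2, hX⟩ := h4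
  obtain ⟨c3, C3, hc3, hC3, hD⟩ := h5
  have p2 : 0 < c2 ^ (1 / 3 : ℝ) := Real.rpow_pos_of_pos hc2 _
  have q2 : 0 < C2 ^ (1 / 3 : ℝ) := Real.rpow_pos_of_pos hC2 _
  have hC1' : 0 < C1 := by linarith
  refine ⟨(C1 * (C2 ^ (1 / 3 : ℝ) * C3))⁻¹, C1 / (c2 ^ (1 / 3 : ℝ) * c3), ε0,
    by positivity, by positivity, hε0, ?_⟩
  intro ε θ₁ θ₂ θ₃ θ₄ hε hε' t1 t2 t3 t4 a1 a2
  have hmem : ∀ v, v ∈ J6H18.RC.TR x₁ x₂ y₁ y₂ ε ↔ Y989.SD.pos ε v ∈ f '' Y989.SD.disc := by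
    intro v
    rw [J6H18.RC.mem_TR hε]
    show _ ↔ _ ∈ f '' Metric.closedBall 0 1
    rw [hR.img_disc]
  have hnear : ∀ (a b : ℝ) (v : ℤ × ℤ), v ∈ J6H18.RC.NS x₁ x₂ y₁ y₂ ε (f '' J6H18.RC.CA a b) ↔
      v ∈ near ε (f '' disc) (arc f a b) := by
    intro a b v
    rw [J6H18.RC.mem_NS, arc_eq]
    constructor
    · rintro ⟨h1, z, h2, h3⟩
      exact ⟨(hmem v).mp h1, z, h2, by rw [dist_eq_norm]; exact h3⟩
    · rintro ⟨h1, z, h2, h3⟩
      rw [dist_eq_norm] at h3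
      exact ⟨(hmem v).mpr h1, z, h2, h3⟩
  rw [crossRatio_eq t1 t2 t3 t4, cross_eq hmem (hnear θ₁ θ₂) (hnear θ₃ θ₄)]
  rw [arc_eq] at a1 a2
  have hcmp := hall ε θ₁ θ₂ θ₃ θ₄ hε hε' t1 t2 t3 t4 a1 a2
  obtain ⟨x0, x1, xl, xu⟩ := hX θ₁ θ₂ θ₃ θ₄ t1 t2 t3 t4
  obtain ⟨dl, du⟩ := hD _ x0 x1
  have hcar : ∀ x, cardy x = Y989.SD.cardy x := fun _ => rfl
  rw [hcar]
  have hu := hcmp.l
  have hl := hcmp.r
  set x := Y989.SD.xr θ₁ θ₂ θ₃ θ₄ with hx
  set E := Y989.SD.EE θ₁ θ₂ θ₃ θ₄ with hE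
  set p := H974.Pr H160R2.CV.P (H973.ES (J6H18.RC.TR x₁ x₂ y₁ y₂ ε))
    (J6H18.GD.Jn (J6H18.RC.NS x₁ x₂ y₁ y₂ ε (f '' J6H18.RC.CA θ₁ θ₂))
      (J6H18.RC.NS x₁ x₂ y₁ y₂ ε (f '' J6H18.RC.CA θ₃ θ₄))) with hp
  have hE0 : 0 ≤ E := by
    by_contra hneg
    push Not at hneg
    have : C2 * E < 0 := mul_neg_of_pos_of_neg hC2 hneg
    linarith
  have r1 : c2 ^ (1 / 3 : ℝ) * E ^ (1 / 3 : ℝ) ≤ x ^ (1 / 3 : ℝ) := by
    rw [← Real.mul_rpow hc2.le hE0]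
    exact Real.rpow_le_rpow (mul_nonneg hc2.le hE0) xl (by norm_num)
  have r2 : x ^ (1 / 3 : ℝ) ≤ C2 ^ (1 / 3 : ℝ) * E ^ (1 / 3 : ℝ) := by
    rw [← Real.mul_rpow hC2.le hE0]
    exact Real.rpow_le_rpow x0.le xu (by norm_num)
  constructor
  · rw [inv_mul_le_iff₀ (by positivity)]
    calc Y989.SD.cardy x ≤ C3 * x ^ (1 / 3 : ℝ) := du
      _ ≤ C3 * (C2 ^ (1 / 3 : ℝ) * E ^ (1 / 3 : ℝ)) := mul_le_mul_of_nonneg_left r2 hC3.le
      _ ≤ C3 * (C2 ^ (1 / 3 : ℝ) * (C1 * p)) := by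
          apply mul_le_mul_of_nonneg_left _ hC3.le
          exact mul_le_mul_of_nonneg_left hl q2.le
      _ = C1 * (C2 ^ (1 / 3 : ℝ) * C3) * p := by ring
  · refine hu.trans ?_
    rw [div_mul_eq_mul_div, le_div_iff₀ (by positivity)]
    calc C1 * E ^ (1 / 3 : ℝ) * (c2 ^ (1 / 3 : ℝ) * c3) =
          C1 * (c3 * (c2 ^ (1 / 3 : ℝ) * E ^ (1 / 3 : ℝ))) := by ring
      _ ≤ C1 * (c3 * x ^ (1 / 3 : ℝ)) := by
          apply mul_le_mul_of_nonneg_left _ hC1'.le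
          exact mul_le_mul_of_nonneg_left r1 hc3.le
      _ ≤ C1 * Y989.SD.cardy x := mul_le_mul_of_nonneg_left dl hC1'.le

/-- **Cardy's formula up to constants in rectangles.** Let `f` be a conformal parametrization of a
closed rectangle `f '' disc` with sides parallel to the axes. There are constants `c, C, ε₀ > 0` such
that for every mesh `ε ≤ ε₀` and all pairs of disjoint boundary arcs `f (cir [θ₁, θ₂])`,
`f (cir [θ₃, θ₄])` of diameter at least `ε`, the probability that critical bond percolation on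
`ε ℤ²` contains an open path in the rectangle which joins the two arcs is between `c F` and `C F`,
where `F` is the value of Cardy's formula, i.e. Cardy's function at the cross-ratio of the four
points `cir θ₁, cir θ₂, cir θ₃, cir θ₄` of the unit circle. -/
theorem result (f : ℂ → ℂ) (hf : Rectangular f) : ∃ c C ε₀ : ℝ, 0 < c ∧ 0 < C ∧ 0 < ε₀ ∧
    ∀ ε θ₁ θ₂ θ₃ θ₄ : ℝ, 0 < ε → ε ≤ ε₀ → θ₁ < θ₂ → θ₂ < θ₃ → θ₃ < θ₄ → θ₄ < θ₁ + 2 * Real.pi →
      ε ≤ Metric.diam (arc f θ₁ θ₂) → ε ≤ Metric.diam (arc f θ₃ θ₄) →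
      c * cardy (crossRatio (cir θ₁) (cir θ₂) (cir θ₃) (cir θ₄)) ≤
        cross ε (f '' disc) (arc f θ₁ θ₂) (arc f θ₃ θ₄) ∧
      cross ε (f '' disc) (arc f θ₁ θ₂) (arc f θ₃ θ₄) ≤
        C * cardy (crossRatio (cir θ₁) (cir θ₂) (cir θ₃) (cir θ₄)) :=
  main_of H160R2.SA.arSharp Y989.SD.m_XR Y989.SD.m_CDY f hf

end Pool.Agent.J6H18.RC.RectangleCardyOld
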