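import Pool.Agent.J6H18.GD.Two
import Pool.Agent.J6H18.RC.RectRetr

/-!
The connection probability of two connected sets, in smooth domains and rectangles.
-/

set_option autoImplicit false

namespace Pool.Agent.J6H18.RC

open TH976 (Cmp PD sd sd_pos)
open Complex Set Metric Filter Topology H974 H973 H362P
open Pool.Agent.H160R2.CV
open Pool.Agent.H160R2.CV.Quad
open Pool.Agent.Y989.SD (disc mem_disc pos TD SmW)
open Pool.Agent.H389R2.CD (ArS)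
open Pool.Agent.J6H18.GD

theorem two_S (hA : ArS) {f g : ℂ → ℂ} {Mf α : ℝ} (hf : SmW f g Mf α)
    (hd : DifferentiableOn ℂ f (ball 0 1)) {M : ℝ} (hM : 1 ≤ M) :
    ∃ C ε0 : ℝ, 1 ≤ C ∧ 0 < ε0 ∧ ∀ ε : ℝ, 0 < ε → ε ≤ ε0 →
      (∀ v, v ∈ TD f ε ↔ pos ε v ∈ f '' disc) ∧
      ∀ (S R : Finset Vtx) (X Y : Set ℂ), Ap f ε M S X → Ap f ε M R Y →
      (∀ u ∈ S, u ∈ TD f ε) → (∀ u ∈ R, u ∈ TD f ε) → Ct S → Ct R →
      Cmp C (Pr P (ES (TD f ε)) (Jn S R)) (Rr X Y * Rr Y X) := by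
  obtain ⟨b0, C0, hb0, hdm0, hN0⟩ := dm_S hf hd
  obtain ⟨A, hA1, hr⟩ := retr hdm0 hb0 hN0
  obtain ⟨b1, C, N, K, ε0, κ, k, hε0, hdm, hK, hall⟩ := lp_S hA hf hd hA1
  set c : ℝ := UK 500 k ^ 10 * (κ ^ 3)⁻¹ * (KF C A M K * KF C A M K * QA C A M) with hc
  refine ⟨max 1 c, min ε0 (1 / 2), le_max_left _ _, lt_min hε0 (by norm_num), fun ε hε hε1 => ?_⟩
  obtain ⟨L, e, g, lp⟩ := hall ε hε (hε1.trans (min_le_left _ _))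
  obtain ⟨r, hr⟩ := hr ε hε (hε1.trans (min_le_right _ _))
  refine ⟨lp.mem, fun S R X Y hSX hRY hST hRT hSc hRc => ?_⟩
  refine (two_cont hdm g lp hK hM ?_ hSX hRY hST hRT hSc hRc).weaken (le_max_right _ _)
  intro v hv
  obtain ⟨⟨h1, h2, h3⟩, -⟩ := hr v ((lp.mem v).mp hv)
  refine ⟨iv f (r v), iv_ball hdm h1, ?_, ?_⟩
  · rw [f_iv hdm (image_mono ball_disc h1)]
    exact h2
  · rw [f_iv hdm (image_mono ball_disc h1)]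
    exact bd_of hdm h3

theorem two_R (hA : ArS) {f : ℂ → ℂ} {x1 x2 y1 y2 : ℝ} (h : RM f x1 x2 y1 y2) {M : ℝ}
    (hM : 1 ≤ M) : ∃ C ε0 : ℝ, 1 ≤ C ∧ 0 < ε0 ∧ ∀ ε : ℝ, 0 < ε → ε ≤ ε0 →
      ∀ (S R : Finset Vtx) (X Y : Set ℂ), Ap f ε M S X → Ap f ε M R Y →
      (∀ u ∈ S, u ∈ TR x1 x2 y1 y2 ε) → (∀ u ∈ R, u ∈ TR x1 x2 y1 y2 ε) → Ct S → Ct R →
      Cmp C (Pr P (ES (TR x1 x2 y1 y2 ε)) (Jn S R)) (Rr X Y * Rr Y X) := by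
  obtain ⟨A, ε1, hA1, hε1, hr⟩ := retr_R h
  obtain ⟨C, N, K, ε0, κ, k, hε0, hdm, hK, hall⟩ := lp_R hA h hA1
  set c : ℝ := UK 3 k ^ 10 * (κ ^ 3)⁻¹ * (KF C A M K * KF C A M K * QA C A M) with hc
  refine ⟨max 1 c, min ε0 ε1, le_max_left _ _, lt_min hε0 hε1, fun ε hε hε1 => ?_⟩
  obtain ⟨L, g, lp⟩ := hall ε hε (hε1.trans (min_le_left _ _))
  obtain ⟨r, hr⟩ := hr ε hε (hε1.trans (min_le_right _ _))
  intro S R X Y hSX hRY hST hRT hSc hRc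
  refine (two_cont hdm g lp hK hM ?_ hSX hRY hST hRT hSc hRc).weaken (le_max_right _ _)
  intro v hv
  obtain ⟨⟨h1, h2, h3⟩, -⟩ := hr v ((lp.mem v).mp hv)
  refine ⟨iv f (r v), iv_ball hdm h1, ?_, ?_⟩
  · rw [f_iv hdm (image_mono ball_disc h1)]
    exact h2
  · rw [f_iv hdm (image_mono ball_disc h1)]
    exact bd_of hdm h3

end Pool.Agent.J6H18.RC
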